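import Mathlib

/-! # Liminf values along arithmetic sublattices: Littlewood's conjecture -/

set_option autoImplicit false

open Filter Topology

namespace Pool.Agent.V11299.SP

/-- `c` is the limit inferior of the sequence `f` -/
def IsLim (f : ℕ → ℝ) (c : ℝ) : Prop :=
  (∀ c' : ℝ, c' < c → ∀ᶠ q in atTop, c' < f q) ∧ ∀ c' : ℝ, c < c' → ∃ᶠ q in atTop, f q < c'

lemma isLim_iff (f : ℕ → ℝ) (c : ℝ) :
    liminf (fun q => ((f q : ℝ) : EReal)) atTop = (c : EReal) ↔ IsLim f c := by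
  rw [le_antisymm_iff, Filter.liminf_le_iff, Filter.le_liminf_iff]
  constructor
  · rintro ⟨h1, h2⟩
    refine ⟨fun c' hc' => ?_, fun c' hc' => ?_⟩
    · have := h2 (c' : EReal) (by exact_mod_cast hc')
      filter_upwards [this] with q hq
      exact_mod_cast hq
    · have := h1 (c' : EReal) (by exact_mod_cast hc')
      refine this.mono fun q hq => ?_
      exact_mod_cast hq
  · rintro ⟨h1, h2⟩
    refine ⟨fun y hy => ?_, fun y hy => ?_⟩
    · obtain ⟨r, hr1, hr2⟩ := EReal.lt_iff_exists_real_btwn.1 hy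
      have hr : c < r := by exact_mod_cast hr1
      refine (h2 r hr).mono fun q hq => ?_
      exact lt_trans (by exact_mod_cast hq) hr2
    · obtain ⟨r, hr1, hr2⟩ := EReal.lt_iff_exists_real_btwn.1 hy
      have hr : r < c := by exact_mod_cast hr2
      filter_upwards [h1 r hr] with q hq
      exact lt_trans hr1 (by exact_mod_cast hq)

lemma pigeon {ι : Type*} [Finite ι] [Nonempty ι] {f : ℕ → ℝ} {c : ℝ} (P : ι → ℕ → Prop)
    (hP : ∀ᶠ q in atTop, ∃ i, P i q)
    (hf : ∀ c' : ℝ, c < c' → ∃ᶠ q in atTop, f q < c') :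
    ∃ i, ∀ c' : ℝ, c < c' → ∃ᶠ q in atTop, f q < c' ∧ P i q := by
  by_contra hcon
  push Not at hcon
  choose C hC hev using hcon
  obtain ⟨i₀, hi₀⟩ := Finite.exists_min C
  refine hf (C i₀) (hC i₀) ?_
  have hall : ∀ᶠ q in atTop, ∀ i, f q < C i → ¬ P i q := by
    rw [eventually_all]
    exact hev
  filter_upwards [hP, hall] with q ⟨i, hi⟩ hq hlt
  exact hq i (lt_of_lt_of_le hlt (hi₀ i)) hi

/-- distance to the nearest integer -/
noncomputable def nd (x : ℝ) : ℝ := |x - round x|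

lemma nd_nonneg (x : ℝ) : 0 ≤ nd x := abs_nonneg _

lemma nd_le (x : ℝ) (m : ℤ) : nd x ≤ |x - m| := round_le x m

lemma nd_div_ge {p : ℕ} (hp : 0 < p) (α : ℝ) (a : ℤ) (q : ℕ) :
    nd (q * α) / p ≤ nd (q * ((α - a) / p)) := by
  have hp' : (0 : ℝ) < p := by exact_mod_cast hp
  set n : ℤ := round ((q : ℝ) * ((α - a) / p)) with hn
  have h1 : nd (q * ((α - a) / p)) = |(q : ℝ) * α - ((q * a + p * n : ℤ) : ℝ)| / p := by
    unfold nd
    rw [← hn, ← abs_of_pos hp', ← abs_div, abs_of_pos hp']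
    congr 1
    push_cast
    field_simp
    ring
  rw [h1]
  exact div_le_div_of_nonneg_right (nd_le _ _) hp'.le

lemma nd_div_le {p : ℕ} (hp : 0 < p) (α : ℝ) (a : ℤ) (q : ℕ)
    (h : (p : ℤ) ∣ round ((q : ℝ) * α) - a * q) :
    nd (q * ((α - a) / p)) ≤ nd (q * α) / p := by
  have hp' : (0 : ℝ) < p := by exact_mod_cast hp
  obtain ⟨k, hk⟩ := h
  refine (nd_le _ k).trans (le_of_eq ?_)
  have hk' : (round ((q : ℝ) * α) : ℝ) = a * q + p * k := by
    have : round ((q : ℝ) * α) = a * q + p * k := by linarith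
    exact_mod_cast this
  unfold nd
  rw [hk', ← abs_of_pos hp', ← abs_div, abs_of_pos hp']
  congr 1
  field_simp
  ring

/-- `q ⟨qα⟩ ⟨qβ⟩` -/
noncomputable def lw (α β : ℝ) (q : ℕ) : ℝ :=
  (q : ℝ) * |(q : ℝ) * α - (round ((q : ℝ) * α) : ℝ)|
    * |(q : ℝ) * β - (round ((q : ℝ) * β) : ℝ)|

lemma lw_eq (α β : ℝ) (q : ℕ) : lw α β q = q * nd (q * α) * nd (q * β) := rfl

lemma lw_nonneg (α β : ℝ) (q : ℕ) : 0 ≤ lw α β q := by
  rw [lw_eq]
  exact mul_nonneg (mul_nonneg (Nat.cast_nonneg _) (nd_nonneg _)) (nd_nonneg _)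

lemma lw_mul (α β : ℝ) {p : ℕ} (hp : 0 < p) (q : ℕ) :
    lw (p * α) (p * β) q = lw α β (p * q) / p := by
  have hp' : (p : ℝ) ≠ 0 := by exact_mod_cast hp.ne'
  rw [lw_eq, lw_eq]
  push_cast
  rw [show (q : ℝ) * (p * α) = p * q * α by ring, show (q : ℝ) * (p * β) = p * q * β by ring]
  field_simp

lemma frequently_mul {p : ℕ} (hp : 0 < p) {P : ℕ → Prop}
    (h : ∃ᶠ q in atTop, P q ∧ p ∣ q) : ∃ᶠ q in atTop, P (p * q) := by
  rw [frequently_atTop] at h ⊢
  intro N
  obtain ⟨q, hq, hPq, k, rfl⟩ := h (p * N)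
  exact ⟨k, Nat.le_of_mul_le_mul_left hq hp, hPq⟩

/-- all `q` divisible by `p` along the minimizing sequence: pass to `(pα, pβ)` -/
lemma case_dvd {α β c : ℝ} {p : ℕ} (hp : 0 < p) (h1 : ∀ c' : ℝ, c' < c → ∀ᶠ q in atTop,
      c' < lw α β q)
    (h2 : ∀ c' : ℝ, c < c' → ∃ᶠ q in atTop, lw α β q < c' ∧ p ∣ q) :
    IsLim (lw (p * α) (p * β)) (c / p) := by
  have hp' : (0 : ℝ) < p := by exact_mod_cast hp
  constructor
  · intro c' hc'
    have := h1 (c' * p) (by rwa [lt_div_iff₀ hp'] at hc')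
    have ht : Tendsto (fun q : ℕ => p * q) atTop atTop :=
      tendsto_id.const_mul_atTop' hp
    filter_upwards [ht.eventually this] with q hq
    rw [lw_mul α β hp, lt_div_iff₀ hp']
    exact hq
  · intro c' hc'
    have := h2 (c' * p) (by rwa [div_lt_iff₀ hp'] at hc')
    refine (frequently_mul hp this).mono fun q hq => ?_
    rw [lw_mul α β hp, div_lt_iff₀ hp']
    exact hq

lemma case_left {α β c : ℝ} {p : ℕ} (hp : 0 < p) (a : ℤ) (h1 : ∀ c' : ℝ, c' < c → ∀ᶠ q in atTop,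
      c' < lw α β q)
    (h2 : ∀ c' : ℝ, c < c' → ∃ᶠ q : ℕ in atTop, lw α β q < c' ∧
      (p : ℤ) ∣ round ((q : ℝ) * α) - a * q) :
    IsLim (lw ((α - a) / p) β) (c / p) := by
  have hp' : (0 : ℝ) < p := by exact_mod_cast hp
  constructor
  · intro c' hc'
    have := h1 (c' * p) (by rwa [lt_div_iff₀ hp'] at hc')
    filter_upwards [this] with q hq
    rw [lw_eq] at hq ⊢
    have h := nd_div_ge hp α a q
    calc c' < q * nd (q * α) * nd (q * β) / p := by rwa [lt_div_iff₀ hp']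
      _ = q * (nd (q * α) / p) * nd (q * β) := by ring
      _ ≤ q * nd (q * ((α - a) / p)) * nd (q * β) := by
          have := nd_nonneg ((q : ℝ) * β)
          gcongr
  · intro c' hc'
    have := h2 (c' * p) (by rwa [div_lt_iff₀ hp'] at hc')
    refine this.mono fun q hq => ?_
    have h := nd_div_le hp α a q hq.2
    have hq1 := hq.1
    rw [lw_eq] at hq1 ⊢
    calc q * nd (q * ((α - a) / p)) * nd (q * β) ≤ q * (nd (q * α) / p) * nd (q * β) := by
          have := nd_nonneg ((q : ℝ) * β)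
          gcongr
      _ = q * nd (q * α) * nd (q * β) / p := by ring
      _ < c' := by rwa [div_lt_iff₀ hp']

lemma lw_comm (α β : ℝ) : lw α β = lw β α := by
  funext q
  rw [lw_eq, lw_eq]
  ring

lemma exists_residue {p : ℕ} (hp : p.Prime) (q : ℕ) (hq : ¬ p ∣ q) (y : ℤ) :
    ∃ a : Fin p, (p : ℤ) ∣ y - (a : ℕ) * q := by
  have : Fact p.Prime := ⟨hp⟩
  have hq' : (q : ZMod p) ≠ 0 := by
    rwa [Ne, ZMod.natCast_eq_zero_iff]
  refine ⟨⟨((y : ZMod p) * (q : ZMod p)⁻¹).val, ZMod.val_lt _⟩, ?_⟩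
  rw [← ZMod.intCast_zmod_eq_zero_iff_dvd] 
  push_cast
  rw [ZMod.natCast_val, ZMod.cast_id', id, mul_assoc, inv_mul_cancel₀ hq', mul_one, sub_self]

/-- The division step: for each prime `p`, in one of the `p² + 1` families. -/
lemma step {α β c : ℝ} (hc : IsLim (lw α β) c) {p : ℕ} (hp : p.Prime) :
    IsLim (lw (p * α) (p * β)) (c / p) ∨
    ∃ a b : ℤ, 0 ≤ a ∧ a < p ∧ 0 ≤ b ∧ b < p ∧ IsLim (lw ((α - a) / p) β) (c / p) ∧
      IsLim (lw α ((β - b) / p)) (c / p) ∧ IsLim (lw ((α - a) / p) ((β - b) / p)) (c / p ^ 2) := by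
  have hp0 := hp.pos
  obtain ⟨i, hi⟩ := pigeon (f := lw α β) (c := c) (ι := Option (Fin p × Fin p))
    (fun i q => i.elim (p ∣ q) fun ab => (p : ℤ) ∣ round ((q : ℝ) * α) - ((ab.1 : ℕ) : ℤ) * q ∧
      (p : ℤ) ∣ round ((q : ℝ) * β) - ((ab.2 : ℕ) : ℤ) * q)
    (Eventually.of_forall fun q => by
      by_cases hq : p ∣ q
      · exact ⟨none, hq⟩
      · obtain ⟨a, ha⟩ := exists_residue hp q hq (round ((q : ℝ) * α))
        obtain ⟨b, hb⟩ := exists_residue hp q hq (round ((q : ℝ) * β))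
        exact ⟨some (a, b), ha, hb⟩) hc.2
  rcases i with _ | ⟨a, b⟩
  · left
    exact case_dvd hp0 hc.1 hi
  · right
    have hi' : ∀ c' : ℝ, c < c' → ∃ᶠ q : ℕ in atTop, lw α β q < c' ∧
        ((p : ℤ) ∣ round ((q : ℝ) * α) - ((a : ℕ) : ℤ) * q ∧
      (p : ℤ) ∣ round ((q : ℝ) * β) - ((b : ℕ) : ℤ) * q) := hi
    refine ⟨((a : ℕ) : ℤ), ((b : ℕ) : ℤ), by positivity, by exact_mod_cast a.2, by positivity,
      by exact_mod_cast b.2, ?_, ?_, ?_⟩
    · exact case_left hp0 _ hc.1 fun c' hc' => (hi' c' hc').mono fun q hq => ⟨hq.1, hq.2.1⟩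
    · rw [lw_comm]
      refine case_left hp0 _ (by rw [lw_comm]; exact hc.1) fun c' hc' => ?_
      rw [lw_comm]
      exact (hi' c' hc').mono fun q hq => ⟨hq.1, hq.2.2⟩
    · have hp' : (0 : ℝ) < p := by exact_mod_cast hp0
      constructor
      · intro c' hc'
        have := hc.1 (c' * p ^ 2) (by rwa [lt_div_iff₀ (by positivity)] at hc')
        filter_upwards [this] with q hq
        rw [lw_eq] at hq ⊢
        have ha := nd_div_ge hp0 α (((a : ℕ) : ℤ)) q
        have hb := nd_div_ge hp0 β (((b : ℕ) : ℤ)) q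
        calc c' < q * nd (q * α) * nd (q * β) / p ^ 2 := by rwa [lt_div_iff₀ (by positivity)]
          _ = q * (nd (q * α) / p) * (nd (q * β) / p) := by field_simp
          _ ≤ _ := by
              have h1 := nd_nonneg ((q : ℝ) * β)
              have h2 := nd_nonneg ((q : ℝ) * ((α - (((a : ℕ) : ℤ) : ℝ)) / p))
              gcongr
      · intro c' hc'
        have := hi' (c' * p ^ 2) (by rwa [div_lt_iff₀ (by positivity)] at hc')
        refine this.mono fun q hq => ?_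
        have ha := nd_div_le hp0 α (((a : ℕ) : ℤ)) q hq.2.1
        have hb := nd_div_le hp0 β (((b : ℕ) : ℤ)) q hq.2.2
        have hq1 := hq.1
        rw [lw_eq] at hq1 ⊢
        calc _ ≤ q * (nd (q * α) / p) * (nd (q * β) / p) := by
              have h1 := nd_nonneg ((q : ℝ) * α)
              have h2 := nd_nonneg ((q : ℝ) * ((β - (((b : ℕ) : ℤ) : ℝ)) / p))
              gcongr
          _ = q * nd (q * α) * nd (q * β) / p ^ 2 := by field_simp
          _ < c' := by rwa [div_lt_iff₀ (by positivity)]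

lemma exists_div {α β c : ℝ} (hc : IsLim (lw α β) c) (n : ℕ) (hn : 0 < n) :
    ∃ α' β' : ℝ, IsLim (lw α' β') (c / n) := by
  revert hn
  induction n using induction_on_primes with
  | zero => intro h; exact absurd h (lt_irrefl 0)
  | one => intro _; exact ⟨α, β, by simpa using hc⟩
  | prime_mul p a hp ih =>
    intro hpa
    obtain ⟨α', β', h⟩ := ih (Nat.pos_of_mul_pos_left hpa |> fun _ => by
      rcases Nat.eq_zero_or_pos a with rfl | h
      · simp at hpa
      · exact h)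
    have he : c / ((p * a : ℕ) : ℝ) = c / a / p := by
      push_cast
      rw [div_div, mul_comm]
    rcases step h hp with h | ⟨a', b', _, _, _, _, h, _, _⟩
    · exact ⟨_, _, he ▸ h⟩
    · exact ⟨_, _, he ▸ h⟩

end Pool.Agent.V11299.SP
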