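import Mathlib
import Pool.Agent.V11299.SP.Lit

/-! # Reformulations of Littlewood's conjecture -/

set_option autoImplicit false

open Filter Topology

namespace Pool.Agent.V11299.SP

def Good (α β : ℝ) : Prop :=
  ∀ ε : ℝ, 0 < ε → ∀ N : ℕ, ∃ q : ℕ, N ≤ q ∧ 0 < q ∧ lw α β q < ε

/-- the pairs which arise from `(α, β)` by rational affine maps of the coordinates -/
def Cls (α β : ℝ) : Set (ℝ × ℝ) :=
  {x | ∃ r s r' s' : ℚ, r ≠ 0 ∧ r' ≠ 0 ∧ x = (r * α + s, r' * β + s')}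

lemma exists_div_cls {α β c : ℝ} (hc : IsLim (lw α β) c) (n : ℕ) (hn : 0 < n) :
    ∃ x ∈ Cls α β, IsLim (lw x.1 x.2) (c / n) := by
  revert hn
  induction n using induction_on_primes with
  | zero => intro h; exact absurd h (lt_irrefl 0)
  | one =>
    intro _
    exact ⟨(α, β), ⟨1, 0, 1, 0, one_ne_zero, one_ne_zero, by simp⟩, by simpa using hc⟩
  | prime_mul p a hp ih =>
    intro hpa
    obtain ⟨x, ⟨r, s, r', s', hr, hr', rfl⟩, h⟩ := ih (by
      rcases Nat.eq_zero_or_pos a with rfl | h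
      · simp at hpa
      · exact h)
    have hp0 : (p : ℝ) ≠ 0 := by exact_mod_cast hp.ne_zero
    have hp0' : (p : ℚ) ≠ 0 := by exact_mod_cast hp.ne_zero
    have he : c / ((p * a : ℕ) : ℝ) = c / a / p := by
      push_cast
      rw [div_div, mul_comm]
    rcases step h hp with h | ⟨a', b', _, _, _, _, h, _, _⟩
    · refine ⟨(p * (r * α + s), p * (r' * β + s')), ⟨p * r, p * s, p * r', p * s',
        mul_ne_zero hp0' hr, mul_ne_zero hp0' hr', ?_⟩, he ▸ h⟩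
      push_cast
      ext <;> ring
    · refine ⟨((r * α + s - a') / p, r' * β + s'), ⟨r / p, (s - a') / p, r', s',
        div_ne_zero hr hp0', hr', ?_⟩, he ▸ h⟩
      push_cast
      ext
      · simp only
        field_simp
        ring
      · rfl

lemma exists_large_dirichlet (α : ℝ) (N : ℕ) : ∃ q : ℕ, N ≤ q ∧ (q : ℝ) * nd (q * α) ≤ 1 := by
  by_cases h0 : ∃ k : ℕ, 0 < k ∧ nd (k * α) = 0
  · obtain ⟨k, hk, h⟩ := h0
    refine ⟨N * k, Nat.le_mul_of_pos_right _ hk, ?_⟩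
    have h1 : (k : ℝ) * α = round ((k : ℝ) * α) := by
      unfold nd at h
      linarith [abs_eq_zero.1 h]
    have h2 : nd ((N * k : ℕ) * α) ≤ 0 := by
      refine (nd_le _ (N * round ((k : ℝ) * α))).trans (le_of_eq ?_)
      push_cast
      rw [mul_assoc, ← h1, sub_self, abs_zero]
    have h3 := le_antisymm h2 (nd_nonneg _)
    rw [h3]
    norm_num
  · push Not at h0
    have hpos : ∀ k : ℕ, 0 < k → 0 < nd (k * α) := fun k hk =>
      lt_of_le_of_ne (nd_nonneg _) (Ne.symm (h0 k hk))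
    obtain ⟨m, hm, hmin⟩ : ∃ m : ℝ, 0 < m ∧ ∀ k ∈ Finset.Icc 1 N, m ≤ nd (k * α) := by
      by_cases hN : (Finset.Icc 1 N).Nonempty
      · obtain ⟨k₀, hk₀, hle⟩ := Finset.exists_min_image (Finset.Icc 1 N)
          (fun k : ℕ => nd (k * α)) hN
        exact ⟨_, hpos k₀ (Finset.mem_Icc.1 hk₀).1, hle⟩
      · rw [Finset.not_nonempty_iff_eq_empty] at hN
        exact ⟨1, one_pos, by simp [hN]⟩
    obtain ⟨n, hn⟩ := exists_nat_one_div_lt hm
    obtain ⟨k, hk0, hkn, hk⟩ := Real.exists_nat_abs_mul_sub_round_le α (Nat.succ_pos n)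
    have hkn' : (k : ℝ) ≤ n + 1 := by exact_mod_cast hkn
    have hn0 : (0 : ℝ) ≤ n := Nat.cast_nonneg _
    have hk' : nd (k * α) ≤ 1 / ((n : ℝ) + 1 + 1) := by
      have := hk
      push_cast at this
      exact this
    have hlt : nd (k * α) < m := by
      refine lt_of_le_of_lt hk' (lt_of_le_of_lt ?_ hn)
      gcongr
      linarith
    refine ⟨k, ?_, ?_⟩
    · by_contra hcon
      push Not at hcon
      exact absurd (hmin k (Finset.mem_Icc.2 ⟨hk0, hcon.le⟩)) (not_le.2 hlt)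
    · calc (k : ℝ) * nd (k * α) ≤ (n + 1) * (1 / ((n : ℝ) + 1 + 1)) := by
            have := nd_nonneg ((k : ℝ) * α)
            gcongr
        _ ≤ 1 := by
            rw [mul_one_div, div_le_one (by positivity)]
            linarith

lemma nd_le_half (x : ℝ) : nd x ≤ 1 / 2 := abs_sub_round x

lemma frequently_lw_le (α β : ℝ) : ∃ᶠ q : ℕ in atTop, lw α β q ≤ 1 := by
  rw [frequently_atTop]
  intro N
  obtain ⟨q, hq, h⟩ := exists_large_dirichlet α N
  refine ⟨q, hq, ?_⟩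
  rw [lw_eq]
  have h1 := nd_le_half ((q : ℝ) * β)
  have h2 := nd_nonneg ((q : ℝ) * β)
  have h3 : 0 ≤ (q : ℝ) * nd (q * α) := mul_nonneg (Nat.cast_nonneg _) (nd_nonneg _)
  nlinarith

lemma exists_isLim (α β : ℝ) : ∃ c : ℝ, 0 ≤ c ∧ IsLim (lw α β) c := by
  set u : ℕ → EReal := fun q => ((lw α β q : ℝ) : EReal) with hu
  have h0 : (0 : EReal) ≤ liminf u atTop := by
    refine le_liminf_of_le (by isBoundedDefault) (Eventually.of_forall fun q => ?_)
    exact EReal.coe_nonneg.2 (lw_nonneg α β q)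
  have h1 : liminf u atTop ≤ ((1 : ℝ) : EReal) := by
    rw [Filter.liminf_le_iff]
    intro y hy
    refine (frequently_lw_le α β).mono fun q hq => ?_
    exact lt_of_le_of_lt (EReal.coe_le_coe_iff.2 hq) hy
  have hbot : liminf u atTop ≠ ⊥ := fun h => by
    rw [h] at h0
    exact absurd h0 (by simp)
  have htop : liminf u atTop ≠ ⊤ := fun h => by
    rw [h] at h1
    exact absurd h1 (not_le.2 (EReal.coe_lt_top 1))
  refine ⟨(liminf u atTop).toReal, EReal.toReal_nonneg h0, ?_⟩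
  rw [← isLim_iff, EReal.coe_toReal htop hbot]

lemma IsLim.not_good {α β c : ℝ} (hc : 0 < c) (h : IsLim (lw α β) c) : ¬ Good α β := by
  intro hg
  obtain ⟨N, hN⟩ := eventually_atTop.1 (h.1 (c / 2) (by linarith))
  obtain ⟨q, hq, _, hlt⟩ := hg (c / 2) (by linarith) N
  exact absurd (hN q hq) (not_lt.2 hlt.le)

lemma good_of_isLim_zero {α β : ℝ} (h : IsLim (lw α β) 0) : Good α β := by
  intro ε hε N
  obtain ⟨q, hq, hlt⟩ := frequently_atTop.1 (h.2 ε hε) (N + 1)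
  exact ⟨q, by omega, by omega, hlt⟩

lemma exists_of_not_good {α β : ℝ} (h : ¬ Good α β) : ∃ c : ℝ, 0 < c ∧ IsLim (lw α β) c := by
  obtain ⟨c, hc0, hc⟩ := exists_isLim α β
  rcases hc0.eq_or_lt with rfl | hlt
  · exact absurd (good_of_isLim_zero hc) h
  · exact ⟨c, hlt, hc⟩

lemma nd_int_mul (m : ℤ) (x : ℝ) : nd (m * x) ≤ |(m : ℝ)| * nd x := by
  refine (nd_le _ (m * round x)).trans (le_of_eq ?_)
  unfold nd
  rw [← abs_mul]
  congr 1
  push_cast
  ring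

lemma nd_add_int (x : ℝ) (m : ℤ) : nd (x + m) = nd x := by
  unfold nd
  rw [round_add_intCast]
  push_cast
  congr 1
  ring

lemma exists_mul_int (D : ℕ) (r : ℚ) (h : r.den ∣ D) : ∃ M : ℤ, ((D : ℝ) * (r : ℝ)) = M := by
  obtain ⟨k, rfl⟩ := h
  refine ⟨k * r.num, ?_⟩
  have hrd : (r.den : ℝ) ≠ 0 := by exact_mod_cast r.den_ne_zero
  have hr1 : (r : ℝ) = r.num / r.den := by exact_mod_cast (Rat.num_div_den r).symm
  rw [hr1]
  push_cast
  field_simp

/-- if the conclusion of Littlewood's conjecture holds for a pair, then for all in its class -/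
lemma good_of_cls {α β : ℝ} (h : Good α β) {x : ℝ × ℝ} (hx : x ∈ Cls α β) :
    Good x.1 x.2 := by
  obtain ⟨r, s, r', s', hr, hr', rfl⟩ := hx
  set D : ℕ := r.den * s.den * (r'.den * s'.den) with hD
  have hD0 : 0 < D := by
    have := r.den_pos
    have := s.den_pos
    have := r'.den_pos
    have := s'.den_pos
    positivity
  obtain ⟨M, hM⟩ := exists_mul_int D r ⟨s.den * (r'.den * s'.den), by rw [hD]; ring⟩
  obtain ⟨K, hK⟩ := exists_mul_int D s ⟨r.den * (r'.den * s'.den), by rw [hD]; ring⟩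
  obtain ⟨M', hM'⟩ := exists_mul_int D r' ⟨s'.den * (r.den * s.den), by rw [hD]; ring⟩
  obtain ⟨K', hK'⟩ := exists_mul_int D s' ⟨r'.den * (r.den * s.den), by rw [hD]; ring⟩
  have key : ∀ (u v : ℚ) (γ : ℝ) (m k : ℤ), (D : ℝ) * (u : ℝ) = m → (D : ℝ) * (v : ℝ) = k →
      ∀ q : ℕ, nd (((D * q : ℕ) : ℝ) * (u * γ + v)) ≤ |(m : ℝ)| * nd (q * γ) := by
    intro u v γ m k hm hk q
    have e : ((D * q : ℕ) : ℝ) * (u * γ + v) = m * (q * γ) + ((k * q : ℤ) : ℝ) := by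
      push_cast
      rw [← hm, ← hk]
      ring
    rw [e, nd_add_int]
    exact nd_int_mul m _
  intro ε hε N
  have hDr : (0 : ℝ) < D := by exact_mod_cast hD0
  obtain ⟨q, hqN, hq0, hq⟩ := h (ε / (D * (|(M : ℝ)| + 1) * (|(M' : ℝ)| + 1))) (by positivity) N
  refine ⟨D * q, ?_, by positivity, ?_⟩
  · exact hqN.trans (Nat.le_mul_of_pos_left q hD0)
  · rw [lw_eq] at hq ⊢
    have h1 := key r s α M K hM hK q
    have h2 := key r' s' β M' K' hM' hK' q
    have h3 : nd (((D * q : ℕ) : ℝ) * (r * α + s)) ≤ (|(M : ℝ)| + 1) * nd (q * α) :=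
      h1.trans (mul_le_mul_of_nonneg_right (by linarith) (nd_nonneg _))
    have h4 : nd (((D * q : ℕ) : ℝ) * (r' * β + s')) ≤ (|(M' : ℝ)| + 1) * nd (q * β) :=
      h2.trans (mul_le_mul_of_nonneg_right (by linarith) (nd_nonneg _))
    calc ((D * q : ℕ) : ℝ) * nd (((D * q : ℕ) : ℝ) * (r * α + s)) *
          nd (((D * q : ℕ) : ℝ) * (r' * β + s'))
        ≤ ((D * q : ℕ) : ℝ) * ((|(M : ℝ)| + 1) * nd (q * α)) *
          ((|(M' : ℝ)| + 1) * nd (q * β)) := by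
          have h5 := nd_nonneg (((D * q : ℕ) : ℝ) * (r' * β + s'))
          have h6 := nd_nonneg ((q : ℝ) * α)
          refine mul_le_mul (mul_le_mul_of_nonneg_left h3 (Nat.cast_nonneg _)) h4 h5 (by positivity)
      _ = (D * (|(M : ℝ)| + 1) * (|(M' : ℝ)| + 1)) * (q * nd (q * α) * nd (q * β)) := by
          push_cast
          ring
      _ < ε := by
          rw [lt_div_iff₀ (by positivity)] at hq
          linarith

/-- counterexamples are dense if there is one -/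
lemma dense_of_not_good {α β : ℝ} (h : ¬ Good α β) {U : Set (ℝ × ℝ)} (hU : IsOpen U)
    (hne : U.Nonempty) : ∃ x ∈ U, ¬ Good x.1 x.2 := by
  obtain ⟨⟨x, y⟩, hxy⟩ := hne
  obtain ⟨ε, hε, hball⟩ := Metric.isOpen_iff.1 hU _ hxy
  obtain ⟨n, hn⟩ := exists_nat_one_div_lt hε
  have hn1 : (0 : ℝ) < ((n + 1 : ℕ) : ℝ) := by positivity
  have key : ∀ γ z : ℝ, ∃ a : ℤ, |(γ - a) / ((n + 1 : ℕ) : ℝ) - z| < ε := by
    intro γ z
    refine ⟨⌊γ - (n + 1 : ℕ) * z⌋, ?_⟩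
    have h1 := Int.floor_le (γ - (n + 1 : ℕ) * z)
    have h2 := Int.lt_floor_add_one (γ - (n + 1 : ℕ) * z)
    rw [abs_lt, lt_sub_iff_add_lt, sub_lt_iff_lt_add, div_lt_iff₀ hn1, lt_div_iff₀ hn1]
    have h3 : (1 : ℝ) < ε * ((n + 1 : ℕ) : ℝ) := by
      rw [one_div, inv_lt_iff_one_lt_mul₀ (by positivity)] at hn
      push_cast
      exact hn
    constructor <;> nlinarith
  obtain ⟨a, ha⟩ := key α x
  obtain ⟨b, hb⟩ := key β y
  refine ⟨((α - a) / ((n + 1 : ℕ) : ℝ), (β - b) / ((n + 1 : ℕ) : ℝ)), hball ?_, ?_⟩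
  · rw [Metric.mem_ball, Prod.dist_eq, max_lt_iff]
    exact ⟨ha, hb⟩
  · obtain ⟨c, hc, hlim⟩ := exists_of_not_good h
    intro hg
    obtain ⟨N, hN⟩ := eventually_atTop.1 (hlim.1 (c / 2) (by linarith))
    obtain ⟨q, hq, _, hlt⟩ := hg (c / 2 / ((n + 1 : ℕ) : ℝ) ^ 2) (by positivity) N
    have h1 := hN q hq
    have ha' := nd_div_ge (Nat.succ_pos n) α a q
    have hb' := nd_div_ge (Nat.succ_pos n) β b q
    rw [lw_eq] at h1 hlt
    have h2 : (q : ℝ) * nd (q * α) * nd (q * β) / ((n + 1 : ℕ) : ℝ) ^ 2 ≤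
        q * nd (q * ((α - a) / ((n + 1 : ℕ) : ℝ))) * nd (q * ((β - b) / ((n + 1 : ℕ) : ℝ))) := by
      calc _ = q * (nd (q * α) / ((n + 1 : ℕ) : ℝ)) * (nd (q * β) / ((n + 1 : ℕ) : ℝ)) := by
            field_simp
        _ ≤ _ := by
            have h3 := nd_nonneg ((q : ℝ) * β)
            have h4 := nd_nonneg ((q : ℝ) * ((α - a) / ((n + 1 : ℕ) : ℝ)))
            have h5 : 0 ≤ nd (q * β) / ((n + 1 : ℕ) : ℝ) := by positivity
            refine mul_le_mul (mul_le_mul_of_nonneg_left ha' (Nat.cast_nonneg _)) hb' h5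
              (mul_nonneg (Nat.cast_nonneg _) h4)
    have h3 : c / 2 / ((n + 1 : ℕ) : ℝ) ^ 2 <
        (q : ℝ) * nd (q * α) * nd (q * β) / ((n + 1 : ℕ) : ℝ) ^ 2 := by
      gcongr
    linarith

/-- the values between `c / (n + 1)` and `c / n` -/
lemma exists_near {c t : ℝ} (hc : 0 < c) (ht : 0 < t) (htc : t ≤ c) :
    ∃ n : ℕ, 0 < n ∧ t ≤ c / n ∧ c / n ≤ t + 2 / c * t ^ 2 := by
  have h1 : (1 : ℝ) ≤ c / t := by rwa [le_div_iff₀ ht, one_mul]
  have hn1 : 1 ≤ ⌊c / t⌋₊ := Nat.le_floor (by exact_mod_cast h1)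
  have hle := Nat.floor_le (show (0 : ℝ) ≤ c / t by positivity)
  have hlt := Nat.lt_floor_add_one (c / t)
  set n := ⌊c / t⌋₊ with hn
  have hn1' : (1 : ℝ) ≤ n := by exact_mod_cast hn1
  have hn0 : (0 : ℝ) < n := by linarith
  rw [le_div_iff₀ ht] at hle
  rw [div_lt_iff₀ ht] at hlt
  refine ⟨n, hn1, ?_, ?_⟩
  · rw [le_div_iff₀ hn0]
    linarith
  · rw [div_le_iff₀ hn0]
    have h2 : c ≤ 2 * n * t := by nlinarith
    have h3 : t * c ≤ 2 * n * t ^ 2 := by nlinarith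
    have h4 : 2 / c * t ^ 2 * n = (2 * n * t ^ 2) / c := by ring
    have h5 : t ≤ (2 * n * t ^ 2) / c := by
      rw [le_div_iff₀ hc]
      exact h3
    nlinarith

lemma continuous_nd : Continuous nd := by
  have h : nd = fun x : ℝ => ‖(x : UnitAddCircle)‖ := by
    funext x
    rw [UnitAddCircle.norm_eq]
    rfl
  rw [h]
  exact (continuous_norm).comp (AddCircle.continuous_mk' 1)

lemma continuous_lw (q : ℕ) : Continuous fun x : ℝ × ℝ => lw x.1 x.2 q := by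
  simp only [lw_eq]
  exact (continuous_const.mul (continuous_nd.comp (continuous_const.mul continuous_fst))).mul
    (continuous_nd.comp (continuous_const.mul continuous_snd))

lemma lw_fract (α β : ℝ) (q : ℕ) : lw (Int.fract α) (Int.fract β) q = lw α β q := by
  have h : ∀ γ : ℝ, nd (q * Int.fract γ) = nd (q * γ) := by
    intro γ
    rw [← nd_add_int (q * Int.fract γ) (q * ⌊γ⌋)]
    congr 1
    push_cast
    rw [← mul_add, Int.fract_add_floor]
  rw [lw_eq, lw_eq, h, h]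

lemma uniform_of_good (h : ∀ α β : ℝ, Good α β) (ε : ℝ) (hε : 0 < ε) :
    ∃ N : ℕ, ∀ α β : ℝ, ∃ q : ℕ, 0 < q ∧ q ≤ N ∧ lw α β q < ε := by
  have hcomp : IsCompact (Set.Icc (0 : ℝ) 1 ×ˢ Set.Icc (0 : ℝ) 1) :=
    isCompact_Icc.prod isCompact_Icc
  obtain ⟨t, ht⟩ := hcomp.elim_finite_subcover
    (fun q : ℕ => {x : ℝ × ℝ | lw x.1 x.2 (q + 1) < ε})
    (fun q => isOpen_lt (continuous_lw (q + 1)) continuous_const) (fun x _ => by
      obtain ⟨q, _, hq0, hq⟩ := h x.1 x.2 ε hε 0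
      obtain ⟨k, rfl⟩ := Nat.exists_eq_add_of_lt hq0
      rw [Set.mem_iUnion]
      refine ⟨k, ?_⟩
      have : 0 + k + 1 = k + 1 := by omega
      rw [this] at hq
      exact hq)
  refine ⟨t.sup id + 1, fun α β => ?_⟩
  have hx : (Int.fract α, Int.fract β) ∈ Set.Icc (0 : ℝ) 1 ×ˢ Set.Icc (0 : ℝ) 1 :=
    ⟨⟨Int.fract_nonneg _, (Int.fract_lt_one _).le⟩, ⟨Int.fract_nonneg _, (Int.fract_lt_one _).le⟩⟩
  obtain ⟨q, hq, hlt⟩ := Set.mem_iUnion₂.1 (ht hx)
  refine ⟨q + 1, Nat.succ_pos _, Nat.succ_le_succ (Finset.le_sup (f := id) hq), ?_⟩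
  have : lw (Int.fract α) (Int.fract β) (q + 1) < ε := hlt
  rwa [lw_fract] at this

lemma good_of_uniform (h : ∀ ε : ℝ, 0 < ε → ∃ N : ℕ, ∀ α β : ℝ, ∃ q : ℕ, 0 < q ∧ q ≤ N ∧
    lw α β q < ε) (α β : ℝ) : Good α β := by
  intro ε hε N
  have hN : (0 : ℝ) < ((N + 1 : ℕ) : ℝ) := by positivity
  obtain ⟨M, hM⟩ := h (ε / ((N + 1 : ℕ) : ℝ)) (by positivity)
  obtain ⟨q, hq0, _, hq⟩ := hM (((N + 1 : ℕ) : ℝ) * α) (((N + 1 : ℕ) : ℝ) * β)
  rw [lw_mul α β (Nat.succ_pos N), div_lt_div_iff_of_pos_right hN] at hq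
  refine ⟨(N + 1) * q, ?_, by positivity, hq⟩
  nlinarith

end Pool.Agent.V11299.SP
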