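import Mathlib
import Pool.Agent.V11299.SP.Lit
import Pool.Agent.V11299.SP.LitEq

/-! # Infima of `q w(q) ⟨qα⟩` along arithmetic sublattices -/

set_option autoImplicit false

open Filter Topology

namespace Pool.Agent.V11299.SP

/-- `q w(q) ⟨qα⟩` -/
noncomputable def mw (w : ℕ → ℝ) (α : ℝ) (q : ℕ) : ℝ :=
  (q : ℝ) * w q * |(q : ℝ) * α - (round ((q : ℝ) * α) : ℝ)|

lemma mw_eq (w : ℕ → ℝ) (α : ℝ) (q : ℕ) : mw w α q = q * w q * nd (q * α) := rfl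

/-- `μ` is the infimum of `f` over the positive integers -/
def InfIs (f : ℕ → ℝ) (μ : ℝ) : Prop :=
  (∀ q : ℕ, 0 < q → μ ≤ f q) ∧ ∀ ε : ℝ, 0 < ε → ∃ q : ℕ, 0 < q ∧ f q < μ + ε

lemma infIs_iff (f : ℕ → ℝ) (μ : ℝ) :
    IsGLB {t : ℝ | ∃ q : ℕ, 0 < q ∧ f q = t} μ ↔ InfIs f μ := by
  constructor
  · rintro ⟨h1, h2⟩
    refine ⟨fun x hx => h1 ⟨x, hx, rfl⟩, fun ε hε => ?_⟩
    by_contra hcon
    push Not at hcon
    have : μ + ε ≤ μ := h2 (by rintro _ ⟨x, hx, rfl⟩; exact hcon x hx)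
    linarith
  · rintro ⟨h1, h2⟩
    refine ⟨by rintro _ ⟨x, hx, rfl⟩; exact h1 x hx, fun b hb => ?_⟩
    refine le_of_forall_pos_le_add fun ε hε => ?_
    obtain ⟨x, hx, hlt⟩ := h2 ε hε
    exact (hb ⟨x, hx, rfl⟩).trans hlt.le

lemma InfIs.unique {f : ℕ → ℝ} {μ μ' : ℝ} (h : InfIs f μ) (h' : InfIs f μ') : μ = μ' :=
  ((infIs_iff f μ).2 h).unique ((infIs_iff f μ').2 h')

lemma exists_infIs {f : ℕ → ℝ} (hf : ∀ q, 0 ≤ f q) : ∃ μ : ℝ, 0 ≤ μ ∧ InfIs f μ := by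
  have hne : {t : ℝ | ∃ q : ℕ, 0 < q ∧ f q = t}.Nonempty := ⟨_, 1, one_pos, rfl⟩
  have hb : BddBelow {t : ℝ | ∃ q : ℕ, 0 < q ∧ f q = t} :=
    ⟨0, by rintro _ ⟨x, hx, rfl⟩; exact hf x⟩
  have := isGLB_csInf hne hb
  refine ⟨_, le_csInf hne ?_, (infIs_iff _ _).1 this⟩
  rintro _ ⟨x, hx, rfl⟩
  exact hf x

lemma pigeon_inf {ι : Type*} [Finite ι] [Nonempty ι] {f : ℕ → ℝ} {μ : ℝ} (P : ι → ℕ → Prop)
    (hP : ∀ q, ∃ i, P i q)
    (hf : ∀ ε : ℝ, 0 < ε → ∃ q : ℕ, 0 < q ∧ f q < μ + ε) :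
    ∃ i, ∀ ε : ℝ, 0 < ε → ∃ q : ℕ, 0 < q ∧ f q < μ + ε ∧ P i q := by
  by_contra hcon
  push Not at hcon
  choose E hE hno using hcon
  obtain ⟨i₀, hi₀⟩ := Finite.exists_min E
  obtain ⟨q, hq, hlt⟩ := hf (E i₀) (hE i₀)
  obtain ⟨i, hi⟩ := hP q
  exact hno i q hq (lt_of_lt_of_le hlt (by linarith [hi₀ i])) hi

/-- division by a prime `ℓ` with `w(ℓ q) = w(q)` -/
lemma step_mix {w : ℕ → ℝ} (hw0 : ∀ q, 0 ≤ w q) {α μ : ℝ} (h : InfIs (mw w α) μ) {l : ℕ}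
    (hl : l.Prime) (hw : ∀ q, 0 < q → w (l * q) = w q) :
    InfIs (mw w (l * α)) (μ / l) ∨
      ∃ a : ℤ, 0 ≤ a ∧ a < l ∧ InfIs (mw w ((α - a) / l)) (μ / l) := by
  have hl0 := hl.pos
  have hl' : (0 : ℝ) < l := by exact_mod_cast hl0
  obtain ⟨i, hi⟩ := pigeon_inf (f := mw w α) (μ := μ) (ι := Option (Fin l))
    (fun i q => i.elim (l ∣ q) fun a => (l : ℤ) ∣ round ((q : ℝ) * α) - ((a : ℕ) : ℤ) * q)
    (fun q => by
      by_cases hq : l ∣ q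
      · exact ⟨none, hq⟩
      · obtain ⟨a, ha⟩ := exists_residue hl q hq (round ((q : ℝ) * α))
        exact ⟨some a, ha⟩) h.2
  rcases i with _ | a
  · left
    have hi' : ∀ ε : ℝ, 0 < ε → ∃ q : ℕ, 0 < q ∧ mw w α q < μ + ε ∧ l ∣ q := hi
    have key : ∀ q : ℕ, 0 < q → mw w (l * α) q = mw w α (l * q) / l := by
      intro q hq
      rw [mw_eq, mw_eq, hw q hq]
      push_cast
      rw [show (q : ℝ) * (l * α) = l * q * α by ring]
      field_simp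
    constructor
    · intro q hq
      rw [key q hq]
      exact div_le_div_of_nonneg_right (h.1 _ (by positivity)) hl'.le
    · intro ε hε
      obtain ⟨q, hq, hlt, k, rfl⟩ := hi' (l * ε) (by positivity)
      have hk : 0 < k := Nat.pos_of_ne_zero (by rintro rfl; simp at hq)
      refine ⟨k, hk, ?_⟩
      rw [key k hk, div_lt_iff₀ hl']
      have : (μ / l + ε) * l = μ + l * ε := by field_simp
      rwa [this]
  · right
    have hi' : ∀ ε : ℝ, 0 < ε → ∃ q : ℕ, 0 < q ∧ mw w α q < μ + ε ∧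
      (l : ℤ) ∣ round ((q : ℝ) * α) - ((a : ℕ) : ℤ) * q := hi
    refine ⟨((a : ℕ) : ℤ), by positivity, by exact_mod_cast a.2, ?_, ?_⟩
    · intro q hq
      have h1 := nd_div_ge hl0 α (((a : ℕ) : ℤ)) q
      have h2 := h.1 q hq
      rw [mw_eq] at h2 ⊢
      calc μ / l ≤ q * w q * nd (q * α) / l := div_le_div_of_nonneg_right h2 hl'.le
        _ = q * w q * (nd (q * α) / l) := by ring
        _ ≤ _ := mul_le_mul_of_nonneg_left h1 (mul_nonneg (Nat.cast_nonneg _) (hw0 q))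
    · intro ε hε
      obtain ⟨q, hq, hlt, hdvd⟩ := hi' (l * ε) (by positivity)
      have h1 := nd_div_le hl0 α (((a : ℕ) : ℤ)) q hdvd
      refine ⟨q, hq, ?_⟩
      rw [mw_eq] at hlt ⊢
      calc _ ≤ q * w q * (nd (q * α) / l) :=
            mul_le_mul_of_nonneg_left h1 (mul_nonneg (Nat.cast_nonneg _) (hw0 q))
        _ = q * w q * nd (q * α) / l := by ring
        _ < μ / l + ε := by
            rw [div_lt_iff₀ hl']
            have : (μ / l + ε) * l = μ + l * ε := by field_simp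
            rwa [this]

/-- the numbers `rα + s` -/
def Cl (α : ℝ) : Set ℝ := {x | ∃ r s : ℚ, r ≠ 0 ∧ x = r * α + s}

lemma self_mem_Cl (α : ℝ) : α ∈ Cl α := ⟨1, 0, one_ne_zero, by simp⟩

lemma exists_div_mix {w : ℕ → ℝ} (hw0 : ∀ q, 0 ≤ w q) {α μ : ℝ} (h : InfIs (mw w α) μ) (n : ℕ)
    (hn : 0 < n) (hw : ∀ l : ℕ, l.Prime → l ∣ n → ∀ q, 0 < q → w (l * q) = w q) :
    ∃ x ∈ Cl α, InfIs (mw w x) (μ / n) := by
  revert hn hw
  induction n using induction_on_primes with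
  | zero => intro h; exact absurd h (lt_irrefl 0)
  | one =>
    intro _ _
    exact ⟨α, self_mem_Cl α, by simpa using h⟩
  | prime_mul p a hp ih =>
    intro hpa hw
    obtain ⟨x, ⟨r, s, hr, rfl⟩, h'⟩ := ih (by
      rcases Nat.eq_zero_or_pos a with rfl | h
      · simp at hpa
      · exact h) (fun l hl hla => hw l hl (dvd_mul_of_dvd_right hla p))
    have hp0 : (p : ℝ) ≠ 0 := by exact_mod_cast hp.ne_zero
    have hp0' : (p : ℚ) ≠ 0 := by exact_mod_cast hp.ne_zero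
    have he : μ / ((p * a : ℕ) : ℝ) = μ / a / p := by
      push_cast
      rw [div_div, mul_comm]
    rcases step_mix hw0 h' hp (hw p hp (dvd_mul_right p a)) with h1 | ⟨b, _, _, h1⟩
    · refine ⟨p * (r * α + s), ⟨p * r, p * s, mul_ne_zero hp0' hr, ?_⟩, he ▸ h1⟩
      push_cast
      ring
    · refine ⟨(r * α + s - b) / p, ⟨r / p, (s - b) / p, div_ne_zero hr hp0', ?_⟩, he ▸ h1⟩
      push_cast
      field_simp
      ring

/-- the infimum is zero -/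
def Z (w : ℕ → ℝ) (α : ℝ) : Prop := ∀ ε : ℝ, 0 < ε → ∃ q : ℕ, 0 < q ∧ mw w α q < ε

lemma mw_nonneg {w : ℕ → ℝ} (hw0 : ∀ q, 0 ≤ w q) (α : ℝ) (q : ℕ) : 0 ≤ mw w α q := by
  rw [mw_eq]
  exact mul_nonneg (mul_nonneg (Nat.cast_nonneg _) (hw0 q)) (nd_nonneg _)

lemma exists_pos_of_not_Z {w : ℕ → ℝ} (hw0 : ∀ q, 0 ≤ w q) {α : ℝ} (h : ¬ Z w α) :
    ∃ μ : ℝ, 0 < μ ∧ InfIs (mw w α) μ := by
  obtain ⟨μ, hμ, hinf⟩ := exists_infIs (mw_nonneg hw0 α)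
  rcases hμ.eq_or_lt with rfl | hpos
  · exfalso
    refine h fun ε hε => ?_
    obtain ⟨q, hq, hlt⟩ := hinf.2 ε hε
    exact ⟨q, hq, by linarith⟩
  · exact ⟨μ, hpos, hinf⟩

lemma not_Z_of_pos {w : ℕ → ℝ} {α μ : ℝ} (hμ : 0 < μ) (h : InfIs (mw w α) μ) : ¬ Z w α := by
  intro hz
  obtain ⟨q, hq, hlt⟩ := hz μ hμ
  exact absurd (h.1 q hq) (not_le.2 hlt)

lemma Z_of_Cl {w : ℕ → ℝ} (hw0 : ∀ q, 0 ≤ w q) (hmono : ∀ D q, 0 < D → 0 < q → w (D * q) ≤ w q)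
    {α x : ℝ} (h : Z w α) (hx : x ∈ Cl α) : Z w x := by
  obtain ⟨r, s, hr, rfl⟩ := hx
  set D : ℕ := r.den * s.den with hD
  have hD0 : 0 < D := by
    have := r.den_pos
    have := s.den_pos
    positivity
  obtain ⟨M, hM⟩ := exists_mul_int D r ⟨s.den, by rw [hD]⟩
  obtain ⟨K, hK⟩ := exists_mul_int D s ⟨r.den, by rw [hD]; ring⟩
  have hDr : (0 : ℝ) < D := by exact_mod_cast hD0
  intro ε hε
  obtain ⟨q, hq, hlt⟩ := h (ε / (D * (|(M : ℝ)| + 1))) (by positivity)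
  refine ⟨D * q, by positivity, ?_⟩
  have e : ((D * q : ℕ) : ℝ) * (r * α + s) = M * (q * α) + ((K * q : ℤ) : ℝ) := by
    push_cast
    rw [← hM, ← hK]
    ring
  rw [mw_eq] at hlt ⊢
  rw [e, nd_add_int]
  have h1 := nd_int_mul M (q * α)
  have h2 : nd (M * (q * α)) ≤ (|(M : ℝ)| + 1) * nd (q * α) :=
    h1.trans (mul_le_mul_of_nonneg_right (by linarith) (nd_nonneg _))
  calc ((D * q : ℕ) : ℝ) * w (D * q) * nd (M * (q * α))
      ≤ ((D * q : ℕ) : ℝ) * w q * ((|(M : ℝ)| + 1) * nd (q * α)) := by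
        refine mul_le_mul (mul_le_mul_of_nonneg_left (hmono D q hD0 hq) (Nat.cast_nonneg _)) h2
          (nd_nonneg _) (mul_nonneg (Nat.cast_nonneg _) (hw0 q))
    _ = (D * (|(M : ℝ)| + 1)) * (q * w q * nd (q * α)) := by
        push_cast
        ring
    _ < ε := by
        rw [lt_div_iff₀ (by positivity)] at hlt
        linarith

lemma dense_mix {w : ℕ → ℝ} (hw0 : ∀ q, 0 ≤ w q) {α : ℝ} (h : ¬ Z w α) {U : Set ℝ}
    (hU : IsOpen U) (hne : U.Nonempty) : ∃ x ∈ U, ¬ Z w x := by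
  obtain ⟨z, hz⟩ := hne
  obtain ⟨ε, hε, hball⟩ := Metric.isOpen_iff.1 hU _ hz
  obtain ⟨n, hn⟩ := exists_nat_one_div_lt hε
  have hn1 : (0 : ℝ) < ((n + 1 : ℕ) : ℝ) := by positivity
  obtain ⟨a, ha⟩ : ∃ a : ℤ, |(α - a) / ((n + 1 : ℕ) : ℝ) - z| < ε := by
    refine ⟨⌊α - (n + 1 : ℕ) * z⌋, ?_⟩
    have h1 := Int.floor_le (α - (n + 1 : ℕ) * z)
    have h2 := Int.lt_floor_add_one (α - (n + 1 : ℕ) * z)
    rw [abs_lt, lt_sub_iff_add_lt, sub_lt_iff_lt_add, div_lt_iff₀ hn1, lt_div_iff₀ hn1]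
    have h3 : (1 : ℝ) < ε * ((n + 1 : ℕ) : ℝ) := by
      rw [one_div, inv_lt_iff_one_lt_mul₀ (by positivity)] at hn
      push_cast
      exact hn
    constructor <;> nlinarith
  refine ⟨(α - a) / ((n + 1 : ℕ) : ℝ), hball ?_, ?_⟩
  · rw [Metric.mem_ball, Real.dist_eq]
    exact ha
  · obtain ⟨μ, hμ, hinf⟩ := exists_pos_of_not_Z hw0 h
    intro hg
    obtain ⟨q, hq, hlt⟩ := hg (μ / ((n + 1 : ℕ) : ℝ)) (by positivity)
    have h1 := hinf.1 q hq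
    have ha' := nd_div_ge (Nat.succ_pos n) α a q
    rw [mw_eq] at h1 hlt
    have h2 : μ / ((n + 1 : ℕ) : ℝ) ≤ (q : ℝ) * w q * nd (q * α) / ((n + 1 : ℕ) : ℝ) :=
      div_le_div_of_nonneg_right h1 hn1.le
    have h3 : (q : ℝ) * w q * nd (q * α) / ((n + 1 : ℕ) : ℝ) ≤
        q * w q * nd (q * ((α - a) / ((n + 1 : ℕ) : ℝ))) := by
      calc _ = q * w q * (nd (q * α) / ((n + 1 : ℕ) : ℝ)) := by ring
        _ ≤ _ := mul_le_mul_of_nonneg_left ha' (mul_nonneg (Nat.cast_nonneg _) (hw0 q))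
    linarith

lemma continuous_mw (w : ℕ → ℝ) (q : ℕ) : Continuous fun x : ℝ => mw w x q := by
  simp only [mw_eq]
  exact continuous_const.mul (continuous_nd.comp (continuous_const.mul continuous_id))

lemma mw_fract (w : ℕ → ℝ) (α : ℝ) (q : ℕ) : mw w (Int.fract α) q = mw w α q := by
  have h : ∀ γ : ℝ, nd (q * Int.fract γ) = nd (q * γ) := by
    intro γ
    rw [← nd_add_int (q * Int.fract γ) (q * ⌊γ⌋)]
    congr 1
    push_cast
    rw [← mul_add, Int.fract_add_floor]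
  rw [mw_eq, mw_eq, h]

lemma uniform_mix {w : ℕ → ℝ} (h : ∀ α : ℝ, Z w α) (ε : ℝ) (hε : 0 < ε) :
    ∃ N : ℕ, ∀ α : ℝ, ∃ q : ℕ, 0 < q ∧ q ≤ N ∧ mw w α q < ε := by
  obtain ⟨t, ht⟩ := (isCompact_Icc (a := (0 : ℝ)) (b := 1)).elim_finite_subcover
    (fun q : ℕ => {x : ℝ | mw w x (q + 1) < ε})
    (fun q => isOpen_lt (continuous_mw w (q + 1)) continuous_const) (fun x _ => by
      obtain ⟨q, hq0, hq⟩ := h x ε hε
      obtain ⟨k, rfl⟩ := Nat.exists_eq_add_of_lt hq0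
      rw [Set.mem_iUnion]
      refine ⟨k, ?_⟩
      have : 0 + k + 1 = k + 1 := by omega
      rw [this] at hq
      exact hq)
  refine ⟨t.sup id + 1, fun α => ?_⟩
  have hx : Int.fract α ∈ Set.Icc (0 : ℝ) 1 := ⟨Int.fract_nonneg _, (Int.fract_lt_one _).le⟩
  obtain ⟨q, hq, hlt⟩ := Set.mem_iUnion₂.1 (ht hx)
  refine ⟨q + 1, Nat.succ_pos _, Nat.succ_le_succ (Finset.le_sup (f := id) hq), ?_⟩
  have : mw w (Int.fract α) (q + 1) < ε := hlt
  rwa [mw_fract] at this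

/-- values between `c / (n + 2)` and `c / n` with `n` prime to `p` -/
lemma exists_near_cop {p : ℕ} (hp : p.Prime) {c t : ℝ} (hc : 0 < c) (ht : 0 < t) (htc : t ≤ c) :
    ∃ n : ℕ, 0 < n ∧ ¬ p ∣ n ∧ t ≤ c / n ∧ c / n ≤ t + 6 / c * t ^ 2 := by
  have h1 : (1 : ℝ) ≤ c / t := by rwa [le_div_iff₀ ht, one_mul]
  have hn1 : 1 ≤ ⌊c / t⌋₊ := Nat.le_floor (by exact_mod_cast h1)
  have hle := Nat.floor_le (show (0 : ℝ) ≤ c / t by positivity)
  have hlt := Nat.lt_floor_add_one (c / t)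
  obtain ⟨n, hn0, hpn, hn2, hn3⟩ : ∃ n : ℕ, 0 < n ∧ ¬ p ∣ n ∧ (n : ℝ) ≤ c / t ∧
      c / t < n + 2 := by
    by_cases hdvd : p ∣ ⌊c / t⌋₊
    · have h2 : 2 ≤ ⌊c / t⌋₊ := hp.two_le.trans (Nat.le_of_dvd (by omega) hdvd)
      refine ⟨⌊c / t⌋₊ - 1, by omega, fun h => ?_, ?_, ?_⟩
      · have : p ∣ 1 := by
          have h3 := Nat.dvd_sub hdvd h
          have h4 : ⌊c / t⌋₊ - (⌊c / t⌋₊ - 1) = 1 := by omega
          rwa [h4] at h3
        exact hp.one_lt.ne' (Nat.dvd_one.1 this)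
      · rw [Nat.cast_sub (by omega)]
        push_cast
        linarith
      · rw [Nat.cast_sub (by omega)]
        push_cast
        linarith
    · exact ⟨⌊c / t⌋₊, by omega, hdvd, hle, by linarith⟩
  have hn1' : (1 : ℝ) ≤ n := by exact_mod_cast hn0
  have hn0' : (0 : ℝ) < n := by linarith
  rw [le_div_iff₀ ht] at hn2
  rw [div_lt_iff₀ ht] at hn3
  refine ⟨n, hn0, hpn, ?_, ?_⟩
  · rw [le_div_iff₀ hn0']
    linarith
  · rw [div_le_iff₀ hn0']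
    have h2 : c ≤ 3 * n * t := by nlinarith
    have h5 : c - n * t ≤ (6 * n * t ^ 2) / c := by
      rw [le_div_iff₀ hc]
      have h6 : 0 ≤ c - n * t := by linarith
      have h7 : c - n * t ≤ 2 * t := by linarith
      nlinarith
    have h4 : 6 / c * t ^ 2 * n = (6 * n * t ^ 2) / c := by ring
    nlinarith

lemma Cl_trans {α x y : ℝ} (hx : x ∈ Cl α) (hy : y ∈ Cl x) : y ∈ Cl α := by
  obtain ⟨r, s, hr, rfl⟩ := hx
  obtain ⟨r', s', hr', rfl⟩ := hy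
  refine ⟨r' * r, r' * s + s', mul_ne_zero hr' hr, ?_⟩
  push_cast
  ring

lemma w_pow {w : ℕ → ℝ} {p : ℕ} (hp : 0 < p) (hwp : ∀ q, 0 < q → w (p * q) = w q / p) (j : ℕ)
    {q : ℕ} (hq : 0 < q) : w (p ^ j * q) = w q / (p : ℝ) ^ j := by
  induction j with
  | zero => simp
  | succ j ih =>
    have e : p ^ (j + 1) * q = p * (p ^ j * q) := by ring
    rw [e, hwp _ (by positivity), ih, pow_succ, div_div]

/-- approximate division by a prime `p` with `w(p q) = w(q) / p` -/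
lemma approx_p {w : ℕ → ℝ} (hw0 : ∀ q, 0 ≤ w q) {p : ℕ} (hp : p.Prime)
    (hwp : ∀ q, 0 < q → w (p * q) = w q / p) {α μ : ℝ} (h : InfIs (mw w α) μ) {ε : ℝ}
    (hε : 0 < ε) : ∃ x ∈ Cl α, ∃ ν : ℝ, μ / p ≤ ν ∧ ν < μ / p + ε ∧ InfIs (mw w x) ν := by
  have hp0 := hp.pos
  have hp' : (0 : ℝ) < p := by exact_mod_cast hp0
  obtain ⟨q₀, hq₀, hlt⟩ := h.2 (p * ε) (by positivity)
  obtain ⟨j, q₁, hq₁, rfl⟩ := Nat.exists_eq_pow_mul_and_not_dvd hq₀.ne' p hp.ne_one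
  have hq₁0 : 0 < q₁ := Nat.pos_of_ne_zero (by rintro rfl; simp at hq₀)
  have key : ∀ q : ℕ, 0 < q → mw w ((p : ℝ) ^ j * α) q = mw w α (p ^ j * q) := by
    intro q hq
    rw [mw_eq, mw_eq, w_pow hp0 hwp j hq]
    push_cast
    rw [show (q : ℝ) * ((p : ℝ) ^ j * α) = (p : ℝ) ^ j * q * α by ring]
    field_simp
  obtain ⟨a, ha⟩ := exists_residue hp q₁ hq₁ (round ((q₁ : ℝ) * ((p : ℝ) ^ j * α)))
  set x : ℝ := ((p : ℝ) ^ j * α - (((a : ℕ) : ℤ) : ℝ)) / p with hx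
  have hxCl : x ∈ Cl α := by
    refine ⟨(p : ℚ) ^ j / p, -(((a : ℕ) : ℤ) : ℚ) / p, ?_, ?_⟩
    · have : (p : ℚ) ≠ 0 := by exact_mod_cast hp.ne_zero
      positivity
    · rw [hx]
      push_cast
      field_simp
      ring
  have hlow : ∀ q : ℕ, 0 < q → μ / p ≤ mw w x q := by
    intro q hq
    have h1 := nd_div_ge hp0 ((p : ℝ) ^ j * α) (((a : ℕ) : ℤ)) q
    have h2 := h.1 (p ^ j * q) (by positivity)
    rw [← key q hq, mw_eq] at h2
    rw [mw_eq]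
    calc μ / p ≤ q * w q * nd (q * ((p : ℝ) ^ j * α)) / p := div_le_div_of_nonneg_right h2 hp'.le
      _ = q * w q * (nd (q * ((p : ℝ) ^ j * α)) / p) := by ring
      _ ≤ _ := mul_le_mul_of_nonneg_left h1 (mul_nonneg (Nat.cast_nonneg _) (hw0 q))
  have hup : mw w x q₁ < μ / p + ε := by
    have h1 := nd_div_le hp0 ((p : ℝ) ^ j * α) (((a : ℕ) : ℤ)) q₁ ha
    rw [← key q₁ hq₁0, mw_eq] at hlt
    rw [mw_eq]
    calc _ ≤ q₁ * w q₁ * (nd (q₁ * ((p : ℝ) ^ j * α)) / p) :=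
          mul_le_mul_of_nonneg_left h1 (mul_nonneg (Nat.cast_nonneg _) (hw0 q₁))
      _ = q₁ * w q₁ * nd (q₁ * ((p : ℝ) ^ j * α)) / p := by ring
      _ < μ / p + ε := by
          rw [div_lt_iff₀ hp']
          have : (μ / p + ε) * p = μ + p * ε := by field_simp
          rwa [this]
  obtain ⟨ν, -, hν⟩ := exists_infIs (mw_nonneg hw0 x)
  refine ⟨x, hxCl, ν, ?_, lt_of_le_of_lt (hν.1 q₁ hq₁0) hup, hν⟩
  refine le_of_forall_pos_le_add fun δ hδ => ?_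
  obtain ⟨q, hq, hqlt⟩ := hν.2 δ hδ
  exact (hlow q hq).trans hqlt.le

lemma approx_all {w : ℕ → ℝ} (hw0 : ∀ q, 0 ≤ w q)
    (hw : ∀ l : ℕ, l.Prime → (∀ q, 0 < q → w (l * q) = w q) ∨ ∀ q, 0 < q → w (l * q) = w q / l)
    {α μ : ℝ} (h : InfIs (mw w α) μ) (n : ℕ) (hn : 0 < n) : ∀ ε : ℝ, 0 < ε →
      ∃ x ∈ Cl α, ∃ ν : ℝ, μ / n ≤ ν ∧ ν < μ / n + ε ∧ InfIs (mw w x) ν := by
  revert hn
  induction n using induction_on_primes with
  | zero => intro h; exact absurd h (lt_irrefl 0)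
  | one =>
    intro _ ε hε
    exact ⟨α, self_mem_Cl α, μ, by simp, by simpa using hε, h⟩
  | prime_mul p a hp ih =>
    intro hpa ε hε
    have ha : 0 < a := by
      rcases Nat.eq_zero_or_pos a with rfl | h
      · simp at hpa
      · exact h
    have hp1 : (1 : ℝ) ≤ p := by exact_mod_cast hp.one_lt.le
    have hp' : (0 : ℝ) < p := by linarith
    have ha' : (0 : ℝ) < a := by exact_mod_cast ha
    obtain ⟨x, hx, ν, h1, h2, h3⟩ := ih ha (ε / 2) (by linarith)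
    have he : μ / ((p * a : ℕ) : ℝ) = μ / a / p := by
      push_cast
      rw [div_div, mul_comm]
    have h4 : μ / a / p ≤ ν / p := div_le_div_of_nonneg_right h1 hp'.le
    have h5 : ν / p ≤ μ / a / p + ε / 2 := by
      rw [div_le_iff₀ hp']
      have : (μ / a / p + ε / 2) * p = μ / a + ε / 2 * p := by field_simp
      rw [this]
      nlinarith
    rcases hw p hp with hwp | hwp
    · rcases step_mix hw0 h3 hp hwp with h6 | ⟨b, _, _, h6⟩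
      · refine ⟨p * x, Cl_trans hx ⟨p, 0, by exact_mod_cast hp.ne_zero, by push_cast; ring⟩, ν / p,
          ?_, ?_, h6⟩
        · rw [he]; exact h4
        · rw [he]; linarith
      · refine ⟨(x - b) / p, Cl_trans hx ⟨1 / p, -b / p, ?_, by push_cast; ring⟩, ν / p, ?_, ?_, h6⟩
        · have : (p : ℚ) ≠ 0 := by exact_mod_cast hp.ne_zero
          positivity
        · rw [he]; exact h4
        · rw [he]; linarith
    · obtain ⟨y, hy, ν', h6, h7, h8⟩ := approx_p hw0 hp hwp h3 (ε := ε / 2) (by linarith)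
      refine ⟨y, Cl_trans hx hy, ν', ?_, ?_, h8⟩
      · rw [he]; linarith
      · rw [he]; linarith

end Pool.Agent.V11299.SP
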