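import Mathlib
import Pool.Agent.H715R2.Orbit

import Pool.Agent.V11299.SP.Lit

/-! # Sublattices of products of linear forms -/

set_option autoImplicit false

open Filter Topology Matrix H715R2

namespace Pool.Agent.V11299.SP

variable {d : ℕ}

lemma propInt_iff (g : Matrix (Fin d) (Fin d) ℝ) :
    PropInt g ↔ ∃ c : ℝ, c ≠ 0 ∧ ∃ P : MvPolynomial (Fin d) ℤ,
      c • polyF g = MvPolynomial.map (Int.castRingHom ℝ) P := by
  classical
  constructor
  · rintro ⟨c, hc, h⟩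
    refine ⟨c, hc, ?_⟩
    choose z hz using h
    refine ⟨∑ m ∈ (c • polyF g).support, MvPolynomial.monomial m (z m), ?_⟩
    rw [map_sum]
    simp only [MvPolynomial.map_monomial]
    conv_lhs => rw [(c • polyF g).as_sum]
    refine Finset.sum_congr rfl fun m _ => ?_
    rw [hz m]
    rfl
  · rintro ⟨c, hc, P, hP⟩
    refine ⟨c, hc, fun m => ⟨MvPolynomial.coeff m P, ?_⟩⟩
    rw [hP, MvPolynomial.coeff_map]
    rfl

lemma propInt_mul {g : Matrix (Fin d) (Fin d) ℝ} (h : PropInt g)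
    (A : Matrix (Fin d) (Fin d) ℤ) : PropInt (g * zR A) := by
  classical
  rw [propInt_iff] at h ⊢
  obtain ⟨c, hc, P, hP⟩ := h
  refine ⟨c, hc, MvPolynomial.bind₁ (fun j => ∑ k, MvPolynomial.C (A j k) * MvPolynomial.X k) P, ?_⟩
  have h1 : polyF (g * zR A) = MvPolynomial.bind₁ (fun j => ∑ k,
      MvPolynomial.C ((A j k : ℤ) : ℝ) * MvPolynomial.X k) (polyF g) := by
    unfold polyF
    rw [map_prod]
    refine Finset.prod_congr rfl fun i _ => ?_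
    rw [map_sum]
    simp only [map_mul, MvPolynomial.bind₁_C_right, MvPolynomial.bind₁_X_right]
    simp only [Matrix.mul_apply, Finset.mul_sum, map_sum, Finset.sum_mul]
    rw [Finset.sum_comm]
    refine Finset.sum_congr rfl fun j _ => Finset.sum_congr rfl fun k _ => ?_
    simp only [zR, Matrix.map_apply, map_mul]
    ring
  have h2 : (fun j => MvPolynomial.map (Int.castRingHom ℝ)
      (∑ k, MvPolynomial.C (A j k) * MvPolynomial.X k)) = fun j => ∑ k,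
      MvPolynomial.C ((A j k : ℤ) : ℝ) * MvPolynomial.X k := by
    funext j
    rw [map_sum]
    simp only [map_mul, MvPolynomial.map_C, MvPolynomial.map_X]
    rfl
  rw [h1, ← map_smul, hP, MvPolynomial.map_bind₁, h2]

lemma FF_smul (t : ℝ) (g : Matrix (Fin d) (Fin d) ℝ) (x : Fin d → ℝ) :
    FF (t • g) x = t ^ d * FF g x := by
  unfold FF
  have h1 : ∀ i : Fin d, ∑ j : Fin d, (t • g) i j * x j = t * ∑ j, g i j * x j := by
    intro i
    rw [Finset.mul_sum]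
    refine Finset.sum_congr rfl fun j _ => ?_
    rw [Matrix.smul_apply, smul_eq_mul, mul_assoc]
  rw [Finset.prod_congr rfl fun i _ => h1 i, Finset.prod_mul_distrib, Finset.prod_const,
    Finset.card_univ, Fintype.card_fin]

lemma propInt_smul {t : ℝ} (ht : t ≠ 0) {g : Matrix (Fin d) (Fin d) ℝ} (h : PropInt g) :
    PropInt (t • g) := by
  obtain ⟨c, hc, hz⟩ := h
  refine ⟨c * (t ^ d)⁻¹, mul_ne_zero hc (inv_ne_zero (pow_ne_zero _ ht)), fun m => ?_⟩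
  obtain ⟨z, hz⟩ := hz m
  refine ⟨z, ?_⟩
  rw [← hz]
  congr 1
  unfold polyF
  have h1 : ∀ i : Fin d, (∑ j : Fin d, MvPolynomial.C ((t • g) i j) * MvPolynomial.X j :
      MvPolynomial (Fin d) ℝ) = MvPolynomial.C t *
        ∑ j : Fin d, MvPolynomial.C (g i j) * MvPolynomial.X j := by
    intro i
    rw [Finset.mul_sum]
    refine Finset.sum_congr rfl fun j _ => ?_
    rw [Matrix.smul_apply, smul_eq_mul, MvPolynomial.C_mul, mul_assoc]
  rw [Finset.prod_congr rfl fun i _ => h1 i, Finset.prod_mul_distrib, Finset.prod_const,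
    Finset.card_univ, Fintype.card_fin, ← MvPolynomial.C_pow, MvPolynomial.smul_eq_C_mul,
    MvPolynomial.smul_eq_C_mul, ← mul_assoc, ← MvPolynomial.C_mul]
  congr 2
  rw [mul_assoc, inv_mul_cancel₀ (pow_ne_zero _ ht), mul_one]

lemma propInt_smul_iff {t : ℝ} (ht : t ≠ 0) {g : Matrix (Fin d) (Fin d) ℝ} :
    PropInt (t • g) ↔ PropInt g := by
  refine ⟨fun h => ?_, propInt_smul ht⟩
  have := propInt_smul (inv_ne_zero ht) h
  rwa [smul_smul, inv_mul_cancel₀ ht, one_smul] at this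

lemma propInt_mul_iff {g : Matrix (Fin d) (Fin d) ℝ} {A : Matrix (Fin d) (Fin d) ℤ}
    (hA : A.det ≠ 0) : PropInt (g * zR A) ↔ PropInt g := by
  refine ⟨fun h => ?_, fun h => propInt_mul h A⟩
  have h1 := propInt_mul h A.adjugate
  have h2 : g * zR A * zR A.adjugate = (A.det : ℝ) • g := by
    rw [Matrix.mul_assoc, ← zR_mul, Matrix.mul_adjugate]
    have h3 : zR (A.det • (1 : Matrix (Fin d) (Fin d) ℤ)) = (A.det : ℝ) • 1 := by
      ext i j
      simp only [zR, Matrix.map_apply, Matrix.smul_apply, Matrix.one_apply, smul_eq_mul]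
      push_cast
      split_ifs <;> simp
    rw [h3, Matrix.mul_smul, Matrix.mul_one]
  rw [h2] at h1
  exact (propInt_smul_iff (by exact_mod_cast hA)).1 h1

/-- `ν` is the infimum of `|F g|` over the nonzero integer points -/
def Gl (g : Matrix (Fin d) (Fin d) ℝ) (ν : ℝ) : Prop :=
  IsGLB {t : ℝ | ∃ x : Fin d → ℤ, x ≠ 0 ∧ |FF g (iR x)| = t} ν

lemma gl_iff (g : Matrix (Fin d) (Fin d) ℝ) (ν : ℝ) :
    Gl g ν ↔ (∀ x : Fin d → ℤ, x ≠ 0 → ν ≤ |FF g (iR x)|) ∧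
      ∀ ε : ℝ, 0 < ε → ∃ x : Fin d → ℤ, x ≠ 0 ∧ |FF g (iR x)| < ν + ε := by
  constructor
  · rintro ⟨h1, h2⟩
    refine ⟨fun x hx => h1 ⟨x, hx, rfl⟩, fun ε hε => ?_⟩
    by_contra hcon
    push Not at hcon
    have : ν + ε ≤ ν := h2 (by rintro _ ⟨x, hx, rfl⟩; exact hcon x hx)
    linarith
  · rintro ⟨h1, h2⟩
    refine ⟨by rintro _ ⟨x, hx, rfl⟩; exact h1 x hx, fun b hb => ?_⟩
    refine le_of_forall_pos_le_add fun ε hε => ?_
    obtain ⟨x, hx, hlt⟩ := h2 ε hε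
    exact (hb ⟨x, hx, rfl⟩).trans hlt.le

lemma gl_nonneg {g : Matrix (Fin d) (Fin d) ℝ} {ν : ℝ} (h : Gl g ν) : 0 ≤ ν :=
  h.2 (by rintro _ ⟨x, hx, rfl⟩; exact abs_nonneg _)

lemma exists_gl (hd : 0 < d) (g : Matrix (Fin d) (Fin d) ℝ) : ∃ ν : ℝ, 0 ≤ ν ∧ Gl g ν := by
  have hne : {t : ℝ | ∃ x : Fin d → ℤ, x ≠ 0 ∧ |FF g (iR x)| = t}.Nonempty := by
    refine ⟨_, Function.const _ 1, ?_, rfl⟩
    intro h
    have := congrFun h ⟨0, hd⟩
    simp at this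
  have hb : BddBelow {t : ℝ | ∃ x : Fin d → ℤ, x ≠ 0 ∧ |FF g (iR x)| = t} :=
    ⟨0, by rintro _ ⟨x, hx, rfl⟩; exact abs_nonneg _⟩
  have := isGLB_csInf hne hb
  exact ⟨_, gl_nonneg this, this⟩

lemma mulVec_ne {A : Matrix (Fin d) (Fin d) ℤ} (hA : A.det ≠ 0) {x : Fin d → ℤ} (hx : x ≠ 0) :
    A *ᵥ x ≠ 0 := by
  intro h
  exact hx (Matrix.eq_zero_of_mulVec_eq_zero hA h)

/-- the matrix of the sublattice `x i ≡ c x k` mod `p` -/
def hyp (i k : Fin d) (p c : ℤ) : Matrix (Fin d) (Fin d) ℤ :=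
  1 + Matrix.replicateCol Unit (Pi.single i 1 : Fin d → ℤ) *
    Matrix.replicateRow Unit (fun j => (p - 1) * (Pi.single i 1 : Fin d → ℤ) j +
      c * (Pi.single k 1 : Fin d → ℤ) j)

lemma hyp_det {i k : Fin d} (hik : i ≠ k) (p c : ℤ) : (hyp i k p c).det = p := by
  rw [hyp, Matrix.det_one_add_replicateCol_mul_replicateRow]
  simp [dotProduct, Pi.single_apply, hik]

lemma hyp_mulVec {i k : Fin d} (p c : ℤ) (y : Fin d → ℤ) (j : Fin d) :
    (hyp i k p c *ᵥ y) j = y j + (if j = i then (p - 1) * y i + c * y k else 0) := by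
  rw [hyp, Matrix.add_mulVec, Matrix.one_mulVec, Pi.add_apply]
  congr 1
  simp only [Matrix.mulVec, dotProduct, Matrix.mul_apply, Matrix.replicateCol_apply,
    Matrix.replicateRow_apply, Finset.univ_unique, Finset.sum_singleton, Pi.single_apply]
  split_ifs with h
  · simp [add_mul, Finset.sum_add_distrib, ite_mul, mul_ite]
  · simp

lemma hyp_mem {i k : Fin d} (hik : i ≠ k) {p c : ℤ} {x : Fin d → ℤ} (h : p ∣ x i - c * x k) :
    ∃ y : Fin d → ℤ, hyp i k p c *ᵥ y = x := by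
  obtain ⟨z, hz⟩ := h
  refine ⟨Function.update x i z, ?_⟩
  funext j
  rw [hyp_mulVec]
  by_cases hj : j = i
  · subst hj
    rw [if_pos rfl, Function.update_self, Function.update_of_ne hik.symm]
    linarith
  · rw [if_neg hj, Function.update_of_ne hj, add_zero]

lemma exists_residue_int {p : ℕ} (hp : p.Prime) (q : ℤ) (hq : ¬ (p : ℤ) ∣ q) (y : ℤ) :
    ∃ a : Fin p, (p : ℤ) ∣ y - (a : ℕ) * q := by
  have : Fact p.Prime := ⟨hp⟩
  have hq' : (q : ZMod p) ≠ 0 := by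
    rwa [Ne, ZMod.intCast_zmod_eq_zero_iff_dvd]
  refine ⟨⟨((y : ZMod p) * (q : ZMod p)⁻¹).val, ZMod.val_lt _⟩, ?_⟩
  rw [← ZMod.intCast_zmod_eq_zero_iff_dvd] 
  push_cast
  rw [ZMod.natCast_val, ZMod.cast_id', id, mul_assoc, inv_mul_cancel₀ hq', mul_one, sub_self]

lemma exists_hyper (hd : 2 ≤ d) {p : ℕ} (hp : p.Prime) (x : Fin d → ℤ) :
    ∃ t : {t : Fin d × Fin d // t.1 ≠ t.2} × Fin p,
      (p : ℤ) ∣ x t.1.1.1 - ((t.2 : ℕ) : ℤ) * x t.1.1.2 := by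
  have : Nontrivial (Fin d) := Fin.nontrivial_iff_two_le.2 hd
  by_cases h : ∃ k, ¬ (p : ℤ) ∣ x k
  · obtain ⟨k, hk⟩ := h
    obtain ⟨i, hi⟩ := exists_ne k
    obtain ⟨a, ha⟩ := exists_residue_int hp (x k) hk (x i)
    exact ⟨⟨⟨(i, k), hi⟩, a⟩, ha⟩
  · push Not at h
    obtain ⟨i, k, hik⟩ := exists_pair_ne (Fin d)
    exact ⟨⟨⟨(i, k), hik⟩, ⟨0, hp.pos⟩⟩, by simpa using h i⟩

/-- Every form has, for every prime `p`, a sublattice of index `p` with the same infimum. -/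
lemma step_csd (hd : 2 ≤ d) {g : Matrix (Fin d) (Fin d) ℝ} {ν : ℝ} (h : Gl g ν) {p : ℕ}
    (hp : p.Prime) : ∃ A : Matrix (Fin d) (Fin d) ℤ, A.det = p ∧ Gl (g * zR A) ν := by
  rw [gl_iff] at h
  obtain ⟨h1, h2⟩ := h
  obtain ⟨t, ht⟩ : ∃ t : {t : Fin d × Fin d // t.1 ≠ t.2} × Fin p, ∀ ε : ℝ, 0 < ε →
      ∃ x : Fin d → ℤ, x ≠ 0 ∧ |FF g (iR x)| < ν + ε ∧
        (p : ℤ) ∣ x t.1.1.1 - ((t.2 : ℕ) : ℤ) * x t.1.1.2 := by
    by_contra hcon
    push Not at hcon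
    choose E hE hno using hcon
    have : Nonempty ({t : Fin d × Fin d // t.1 ≠ t.2} × Fin p) :=
      ⟨(exists_hyper hd hp 0).choose⟩
    obtain ⟨t₀, ht₀⟩ := Finite.exists_min E
    obtain ⟨x, hx, hlt⟩ := h2 (E t₀) (hE t₀)
    obtain ⟨t, ht⟩ := exists_hyper hd hp x
    exact hno t x hx (lt_of_lt_of_le hlt (by linarith [ht₀ t])) ht
  have hdet : (hyp t.1.1.1 t.1.1.2 (p : ℤ) ((t.2 : ℕ) : ℤ)).det = p := hyp_det t.1.2 _ _
  have hp0 : (p : ℤ) ≠ 0 := by exact_mod_cast hp.ne_zero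
  refine ⟨hyp t.1.1.1 t.1.1.2 (p : ℤ) ((t.2 : ℕ) : ℤ), hdet, ?_⟩
  rw [gl_iff]
  have hF : ∀ y : Fin d → ℤ, FF (g * zR (hyp t.1.1.1 t.1.1.2 (p : ℤ) ((t.2 : ℕ) : ℤ))) (iR y) =
      FF g (iR (hyp t.1.1.1 t.1.1.2 (p : ℤ) ((t.2 : ℕ) : ℤ) *ᵥ y)) := by
    intro y
    rw [FF_mul, zR_mulVec_iR]
  refine ⟨fun y hy => ?_, fun ε hε => ?_⟩
  · rw [hF]
    exact h1 _ (mulVec_ne (by rw [hdet]; exact hp0) hy)
  · obtain ⟨x, hx, hlt, hdvd⟩ := ht ε hε
    obtain ⟨y, hy⟩ := hyp_mem t.1.2 hdvd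
    refine ⟨y, ?_, ?_⟩
    · rintro rfl
      rw [Matrix.mulVec_zero] at hy
      exact hx hy.symm
    · rw [hF, hy]
      exact hlt

/-- Every form has for every `n` a sublattice of index `n` with the same infimum. -/
lemma exists_div_csd (hd : 2 ≤ d) {g : Matrix (Fin d) (Fin d) ℝ} {ν : ℝ} (h : Gl g ν) (n : ℕ)
    (hn : 0 < n) : ∃ A : Matrix (Fin d) (Fin d) ℤ, A.det = n ∧ Gl (g * zR A) ν := by
  revert hn
  induction n using induction_on_primes with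
  | zero => intro h; exact absurd h (lt_irrefl 0)
  | one =>
    intro _
    exact ⟨1, by simp, by rwa [zR_one, Matrix.mul_one]⟩
  | prime_mul p a hp ih =>
    intro hpa
    obtain ⟨A, hA, hGA⟩ := ih (by
      rcases Nat.eq_zero_or_pos a with rfl | h
      · simp at hpa
      · exact h)
    obtain ⟨B, hB, hGB⟩ := step_csd hd hGA hp
    refine ⟨A * B, ?_, ?_⟩
    · rw [Matrix.det_mul, hA, hB]
      push_cast
      ring
    · rwa [zR_mul, ← Matrix.mul_assoc]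

end Pool.Agent.V11299.SP
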