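import Mathlib
import Pool.Agent.V11109.CSD.Iso
import Pool.Agent.TH314.CSD.Attain
import Pool.Agent.V11299.SP.CsdA

/-! # The set of the infima of counterexamples is closed -/

set_option autoImplicit false

open Filter Topology Matrix H715R2

namespace Pool.Agent.V11299.SP

variable {d : ℕ}

/-- counterexamples of determinant `±1` whose infima converge have a limit which attains the
limit of the infima -/
theorem limit_attained (hd : 3 ≤ d) {ν : ℝ} (hν : 0 < ν) {g : ℕ → Matrix (Fin d) (Fin d) ℝ}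
    {u : ℕ → ℝ} (hu : Tendsto u atTop (𝓝 ν)) (hu1 : ∀ n, ν / 2 ≤ u n) (hu2 : ∀ n, u n ≤ 2 * ν)
    (hdet : ∀ n, |(g n).det| = 1) (hint : ∀ n, ¬ PropInt (g n)) (hG : ∀ n, Gl (g n) (u n)) :
    ∃ h : Matrix (Fin d) (Fin d) ℝ, |h.det| = 1 ∧ ¬ PropInt h ∧ HasNu h ν ∧
      ∃ x₀ : Fin d → ℤ, x₀ ≠ 0 ∧ |FF h (iR x₀)| = ν := by
  classical
  have hd0 : 0 < d := by omega
  have hν2 : 0 < ν / 2 := by linarith
  have hnu : ∀ n, HasNu (g n) (u n) := fun n => ((gl_iff _ _).1 (hG n)).1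
  have hnu2 : ∀ n, HasNu (g n) (ν / 2) := fun n x hx => (hu1 n).trans (hnu n x hx)
  have hK : ∀ n, g n ∈ Pool.Agent.V11109.CSD.KK d 1 (ν / 2) := fun n => ⟨hdet n, hnu2 n⟩
  have hseq : ∀ n : ℕ, ∃ m : Fin d → ℤ, m ≠ 0 ∧ |FF (g n) (iR m)| < u n + 1 / ((n : ℝ) + 1) :=
    fun n => ((gl_iff _ _).1 (hG n)).2 _ (by positivity)
  choose m hm0 hm1 using hseq
  have hz : ∀ n i, (g n *ᵥ iR (m n)) i ≠ 0 := by
    intro n i hi
    have h1 := hnu2 n (m n) (hm0 n)
    rw [FF_eq, Finset.prod_eq_zero (Finset.mem_univ i) hi, abs_zero] at h1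
    exact absurd h1 (not_le.2 hν2)
  choose a ha0 ha1 ha2 using fun n => TH314.CSD.exists_balance hd0 (g n *ᵥ iR (m n)) (hz n)
  obtain ⟨R, hR⟩ := exists_bound hd0 1 (ν / 2) one_pos hν2
  have haM : ∀ n, diagonal (a n) * g n ∈ Pool.Agent.V11109.CSD.KK d 1 (ν / 2) := by
    intro n
    have := Pool.Agent.V11109.CSD.KK_inv 1 (ν / 2) (g n) (hK n) (a n) 1 (ha0 n) (ha1 n) (by simp)
    rwa [zR_one, Matrix.mul_one] at this
  choose γ hγ hγR using fun n => hR _ (haM n).1 (haM n).2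
  set x : ℕ → Matrix (Fin d) (Fin d) ℝ := fun n => diagonal (a n) * g n * zR (γ n) with hx
  have hxO : ∀ n, x n ∈ Orb (g n) := fun n => ⟨a n, γ n, ha0 n, ha1 n, hγ n, rfl⟩
  have hxM : ∀ n, x n ∈ Pool.Agent.V11109.CSD.KK d 1 (ν / 2) := fun n =>
    Pool.Agent.V11109.CSD.closure_sub_KK (hK n) (subset_closure (hxO n))
  set k : ℕ → Fin d → ℤ := fun n => (γ n)⁻¹ *ᵥ m n with hk
  have hk0 : ∀ n, k n ≠ 0 := fun n => TH314.CSD.vec_ne_zero (hγ n) (hm0 n)
  have hγk : ∀ n, γ n *ᵥ k n = m n := by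
    intro n
    simp only [hk]
    rw [mulVec_mulVec, Matrix.mul_nonsing_inv _ (hγ n), one_mulVec]
  have hxk : ∀ n, x n *ᵥ iR (k n) = diagonal (a n) *ᵥ (g n *ᵥ iR (m n)) := by
    intro n
    simp only [hx]
    rw [← mulVec_mulVec, zR_mulVec_iR, hγk, ← mulVec_mulVec]
  set C : ℝ := (2 * ν + 1) ^ ((1 : ℝ) / d) with hC
  have hxkC : ∀ n i, |(x n *ᵥ iR (k n)) i| ≤ C := by
    intro n i
    rw [hxk, mulVec_diagonal, abs_mul, abs_of_pos (ha0 n i), ha2 n i]
    have h1 : ∏ i, |(g n *ᵥ iR (m n)) i| = |FF (g n) (iR (m n))| := by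
      rw [FF_eq, Finset.abs_prod]
    rw [h1, hC]
    apply Real.rpow_le_rpow (abs_nonneg _) _ (by positivity)
    have h2 := (hm1 n).le
    have h3 : 1 / ((n : ℝ) + 1) ≤ 1 := by
      rw [div_le_one (by positivity)]
      have : (0 : ℝ) ≤ n := Nat.cast_nonneg n
      linarith
    have h4 := hu2 n
    linarith
  obtain ⟨D, hD0, hD⟩ := TH314.CSD.inv_bound (d := d) R 1 one_pos
  have hkb : ∀ n i, |iR (k n) i| ≤ ∑ _j : Fin d, D * C := by
    intro n i
    have hu : IsUnit (x n).det :=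
      isUnit_iff_ne_zero.2 (TH314.CSD.det_ne one_pos (hxM n).1)
    have h1 : iR (k n) = (x n)⁻¹ *ᵥ (x n *ᵥ iR (k n)) := by
      rw [mulVec_mulVec, Matrix.nonsing_inv_mul _ hu, one_mulVec]
    rw [h1, mulVec, dotProduct]
    refine (Finset.abs_sum_le_sum_abs _ _).trans (Finset.sum_le_sum fun j _ => ?_)
    rw [abs_mul]
    exact mul_le_mul (hD _ (hxM n).1 (hγR n) i j) (hxkC n j) (abs_nonneg _) hD0
  set L : ℝ := ∑ _j : Fin d, D * C with hL
  have hcpt1 := isCompact_box (d := d) R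
  obtain ⟨h, -, φ, hφ, hlim⟩ := hcpt1.tendsto_subseq hγR
  have hcpt2 : IsCompact (Set.pi Set.univ fun _ : Fin d => Set.Icc (-L) L) :=
    isCompact_univ_pi fun _ => isCompact_Icc
  obtain ⟨κ, -, ψ, hψ, hlim2⟩ := hcpt2.tendsto_subseq (x := fun n => iR (k (φ n)))
    (fun n i _ => abs_le.1 (hkb (φ n) i))
  have hlim1 : Tendsto (fun n => x (φ (ψ n))) atTop (𝓝 h) := hlim.comp hψ.tendsto_atTop
  have hhK : h ∈ Pool.Agent.V11109.CSD.KK d 1 (ν / 2) :=
    (Pool.Agent.V11109.CSD.KK_closed 1 (ν / 2)).mem_of_tendsto hlim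
      (Eventually.of_forall fun n => hxM _)
  obtain ⟨q, hq⟩ := TH314.CSD.limit_integral (k := fun n => k (φ (ψ n))) hlim2
  have hq0 : q ≠ 0 := by
    intro h0
    have h1 : Tendsto (fun n => iR (k (φ (ψ n)))) atTop (𝓝 0) := by
      have h2 : κ = 0 := by
        rw [hq, h0]
        funext i
        simp [iR]
      rw [← h2]
      exact hlim2
    have h2 : ∀ᶠ n in atTop, ∀ i, |iR (k (φ (ψ n))) i| < 1 := by
      refine Filter.eventually_all.2 fun i => ?_
      have h3 := ((tendsto_pi_nhds.1 h1) i).abs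
      simp only [Pi.zero_apply, abs_zero] at h3
      exact h3.eventually (gt_mem_nhds one_pos)
    obtain ⟨n, hn⟩ := h2.exists
    apply hk0 (φ (ψ n))
    funext i
    have h3 := hn i
    simp only [iR] at h3
    have h4 : |k (φ (ψ n)) i| < 1 := by exact_mod_cast h3
    exact Int.abs_lt_one_iff.1 h4
  have hcont : Continuous (fun p : Matrix (Fin d) (Fin d) ℝ × (Fin d → ℝ) => FF p.1 p.2) := by
    unfold FF
    refine continuous_finsetProd _ fun i _ => continuous_finsetSum _ fun j _ => ?_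
    exact ((continuous_apply_apply i j).comp continuous_fst).mul
      ((continuous_apply j).comp continuous_snd)
  have hval : Tendsto (fun n => |FF (x (φ (ψ n))) (iR (k (φ (ψ n))))|) atTop
      (𝓝 |FF h (iR q)|) := by
    have h1 := (hcont.tendsto (h, κ)).comp (hlim1.prodMk_nhds hlim2)
    rw [← hq]
    exact h1.abs
  have hval2 : ∀ n, |FF (x n) (iR (k n))| = |FF (g n) (iR (m n))| := by
    intro n
    simp only [hx]
    rw [FF_orb (ha1 n), hγk]
  have hsub : Tendsto (fun n => φ (ψ n)) atTop atTop := hφ.tendsto_atTop.comp hψ.tendsto_atTop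
  have hlow : HasNu h ν := by
    intro y hy
    have hcy : Continuous (fun h : Matrix (Fin d) (Fin d) ℝ => |FF h (iR y)|) :=
      continuous_abs.comp (continuous_FF _)
    refine le_of_tendsto_of_tendsto' (hu.comp hφ.tendsto_atTop) ((hcy.tendsto h).comp hlim)
      fun n => ?_
    exact hasNu_closure (hnu (φ n)) (subset_closure (hxO (φ n))) y hy
  have hle : |FF h (iR q)| ≤ ν := by
    have h1 : Tendsto (fun n : ℕ => u (φ (ψ n)) + 1 / (((φ (ψ n) : ℕ) : ℝ) + 1)) atTop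
        (𝓝 (ν + 0)) :=
      (hu.comp hsub).add ((tendsto_one_div_add_atTop_nhds_zero_nat).comp hsub)
    rw [add_zero] at h1
    refine le_of_tendsto_of_tendsto' hval h1 fun n => ?_
    rw [hval2]
    exact (hm1 _).le
  refine ⟨h, hhK.1, ?_, hlow, q, hq0, le_antisymm hle (hlow q hq0)⟩
  intro hP
  have hiso := Pool.Agent.V11109.CSD.isolated hd one_pos hν2 hhK hP
  have hw : Tendsto (fun n => x (φ n)) atTop
      (𝓝[Pool.Agent.V11109.CSD.KK d 1 (ν / 2)] h) :=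
    tendsto_nhdsWithin_iff.2 ⟨hlim, Eventually.of_forall fun n => hxM _⟩
  obtain ⟨n, b, hb0, hb1, hn⟩ := (hw.eventually hiso).exists
  have h1 : x (φ n) ∈ closure (Orb h) := by
    refine subset_closure ⟨b, 1, hb0, hb1, by simp, ?_⟩
    rw [hn]
    simp [zR]
  have h2 : PropInt (x (φ n)) :=
    Pool.Agent.Y327.propInt_closure hd (TH314.CSD.det_ne one_pos hhK.1) hν2 hhK.2 hP h1
  exact Pool.Agent.Y327.not_propInt_closure hd (TH314.CSD.det_ne one_pos (hdet (φ n))) hν2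
    (hnu2 (φ n)) (hint (φ n)) (subset_closure (hxO (φ n))) h2

/-- scaling to absolute determinant one -/
lemma exists_norm (hd : 0 < d) {g : Matrix (Fin d) (Fin d) ℝ} (hg : g.det ≠ 0) :
    ∃ t : ℝ, 0 < t ∧ |(t • g).det| = 1 ∧ ∀ x, FF g x = |g.det| * FF (t • g) x := by
  have hV : 0 < |g.det| := abs_pos.2 hg
  have hdR : (0 : ℝ) < d := by exact_mod_cast hd
  set t : ℝ := |g.det| ^ (-(1 : ℝ) / d) with ht
  have ht0 : 0 < t := Real.rpow_pos_of_pos hV _
  have htd : t ^ d = |g.det|⁻¹ := by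
    rw [ht, ← Real.rpow_natCast, ← Real.rpow_mul hV.le, div_mul_cancel₀ _ hdR.ne',
      Real.rpow_neg_one]
  refine ⟨t, ht0, ?_, fun x => ?_⟩
  · rw [Matrix.det_smul, Fintype.card_fin, htd, abs_mul, abs_inv, abs_abs, inv_mul_cancel₀ hV.ne']
  · rw [FF_smul, htd, ← mul_assoc, mul_inv_cancel₀ hV.ne', one_mul]

end Pool.Agent.V11299.SP
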