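import Mathlib
import Pool.Agent.H715R2.CountableValues
import Pool.Agent.V11299.SP.CsdB
import Pool.Agent.V11299.SP.LitEq

/-! # The set of the normalized infima of counterexamples -/

set_option autoImplicit false

open Filter Topology Matrix H715R2

namespace Pool.Agent.V11299.SP

variable {d : ℕ}

/-- the positive normalized infima of the products in `X` not proportional to integral forms -/
def Spec (X : Set (Matrix (Fin d) (Fin d) ℝ)) : Set ℝ :=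
  {ν | 0 < ν ∧ ∃ g ∈ X, g.det ≠ 0 ∧ ¬ PropInt g ∧ Gl g (ν * |g.det|)}

lemma gl_norm {g h : Matrix (Fin d) (Fin d) ℝ} {c ν : ℝ} (hc : 0 < c)
    (hF : ∀ x, FF g x = c * FF h x) : Gl g (ν * c) ↔ Gl h ν := by
  have e : ∀ x, |FF g x| = c * |FF h x| := fun x => by rw [hF, abs_mul, abs_of_pos hc]
  rw [gl_iff, gl_iff]
  refine and_congr (forall_congr' fun x => imp_congr Iff.rfl ?_) ⟨fun h' ε hε => ?_, fun h' ε hε => ?_⟩
  · rw [e, mul_comm ν c, mul_le_mul_iff_right₀ hc]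
  · obtain ⟨x, hx, hlt⟩ := h' (c * ε) (by positivity)
    refine ⟨x, hx, ?_⟩
    rw [e] at hlt
    have : c * |FF h (iR x)| < c * (ν + ε) := by linarith
    exact lt_of_mul_lt_mul_left this hc.le
  · obtain ⟨x, hx, hlt⟩ := h' (ε / c) (by positivity)
    refine ⟨x, hx, ?_⟩
    rw [e]
    have : c * |FF h (iR x)| < c * (ν + ε / c) := mul_lt_mul_of_pos_left hlt hc
    have h2 : c * (ν + ε / c) = ν * c + ε := by
      field_simp
    linarith

lemma spec_norm (hd : 0 < d) {X : Set (Matrix (Fin d) (Fin d) ℝ)} {ν : ℝ} (h : ν ∈ Spec X) :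
    0 < ν ∧ ∃ g : Matrix (Fin d) (Fin d) ℝ, |g.det| = 1 ∧ ¬ PropInt g ∧ Gl g ν := by
  obtain ⟨hν, g, -, hdet, hint, hG⟩ := h
  obtain ⟨t, ht, h1, h2⟩ := exists_norm hd hdet
  exact ⟨hν, t • g, h1, fun hP => hint ((propInt_smul_iff ht.ne').1 hP),
    (gl_norm (abs_pos.2 hdet) h2).1 hG⟩

lemma mem_spec_univ {g : Matrix (Fin d) (Fin d) ℝ} {ν : ℝ} (hν : 0 < ν) (hdet : |g.det| = 1)
    (hint : ¬ PropInt g) (hG : Gl g ν) : ν ∈ Spec (Set.univ : Set (Matrix (Fin d) (Fin d) ℝ)) :=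
  ⟨hν, g, Set.mem_univ _, TH314.CSD.det_ne one_pos hdet, hint, by rwa [hdet, mul_one]⟩

lemma gl_of_attained {h : Matrix (Fin d) (Fin d) ℝ} {ν : ℝ} (hnu : HasNu h ν) {x₀ : Fin d → ℤ}
    (hx : x₀ ≠ 0) (he : |FF h (iR x₀)| = ν) : Gl h ν :=
  (gl_iff _ _).2 ⟨hnu, fun ε hε => ⟨x₀, hx, by linarith⟩⟩

lemma spec_attained (hd : 3 ≤ d) {X : Set (Matrix (Fin d) (Fin d) ℝ)} {ν : ℝ} (h : ν ∈ Spec X) :
    ∃ h : Matrix (Fin d) (Fin d) ℝ, |h.det| = 1 ∧ ¬ PropInt h ∧ HasNu h ν ∧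
      ∃ x₀ : Fin d → ℤ, x₀ ≠ 0 ∧ |FF h (iR x₀)| = ν := by
  obtain ⟨hν, g, hdet, hint, hG⟩ := spec_norm (by omega) h
  exact limit_attained hd hν (g := fun _ => g) (u := fun _ => ν) tendsto_const_nhds
    (fun _ => by linarith) (fun _ => by linarith) (fun _ => hdet) (fun _ => hint) (fun _ => hG)

lemma spec_compact (hd : 3 ≤ d) :
    IsCompact (Spec (Set.univ : Set (Matrix (Fin d) (Fin d) ℝ)) ∪ {0}) := by
  have hd0 : 0 < d := by omega
  set S := Spec (Set.univ : Set (Matrix (Fin d) (Fin d) ℝ)) with hS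
  have hsub : S ∪ {0} ⊆ Set.Icc 0 ((d.factorial : ℝ) + 1) := by
    rintro ν (hν | rfl)
    · obtain ⟨hν0, g, hdet, -, hG⟩ := spec_norm hd0 hν
      obtain ⟨x, hx, hxT⟩ := mink_prod hd0 1 ((d.factorial : ℝ) + 1) one_pos (by
        have h1 : (1 : ℝ) ≤ (d : ℝ) ^ d := one_le_pow₀ (by exact_mod_cast hd0)
        have h2 : (0 : ℝ) ≤ d.factorial := by positivity
        nlinarith) g hdet
      exact ⟨hν0.le, (((gl_iff _ _).1 hG).1 x hx).trans hxT.le⟩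
    · exact ⟨le_rfl, by positivity⟩
  refine isCompact_Icc.of_isClosed_subset ?_ hsub
  refine isClosed_of_closure_subset fun ν hν => ?_
  have hν0 : 0 ≤ ν := (closure_minimal hsub isClosed_Icc hν).1
  rcases hν0.eq_or_lt with rfl | hpos
  · exact Or.inr rfl
  left
  have hseq : ∀ n : ℕ, ∃ u : ℝ, u ∈ S ∧ |u - ν| < min (ν / 2) (1 / ((n : ℝ) + 1)) := by
    intro n
    obtain ⟨u, hu, hdist⟩ := Metric.mem_closure_iff.1 hν (min (ν / 2) (1 / ((n : ℝ) + 1)))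
      (by positivity)
    rw [dist_comm, Real.dist_eq] at hdist
    rcases hu with hu | rfl
    · exact ⟨u, hu, hdist⟩
    · exfalso
      rw [zero_sub, abs_neg, abs_of_pos hpos] at hdist
      have := hdist.trans_le (min_le_left _ _)
      linarith
  choose u hu hun using hseq
  choose g hgdet hgint hgG using fun n => (spec_norm hd0 (hu n)).2
  have hlim : Tendsto u atTop (𝓝 ν) := by
    rw [tendsto_iff_dist_tendsto_zero]
    refine squeeze_zero (fun _ => dist_nonneg) (fun n => ?_)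
      (tendsto_one_div_add_atTop_nhds_zero_nat (𝕜 := ℝ))
    rw [Real.dist_eq]
    exact (hun n).le.trans (min_le_right _ _)
  have hb : ∀ n, |u n - ν| < ν / 2 := fun n => (hun n).trans_le (min_le_left _ _)
  obtain ⟨h, h1, h2, h3, x₀, hx₀, h4⟩ := limit_attained hd hpos hlim
    (fun n => by have := (abs_lt.1 (hb n)).1; linarith)
    (fun n => by have := (abs_lt.1 (hb n)).2; linarith) hgdet hgint hgG
  exact mem_spec_univ hpos h1 h2 (gl_of_attained h3 hx₀ h4)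

/-- the integer multiples of `g` -/
def Mul (g : Matrix (Fin d) (Fin d) ℝ) : Set (Matrix (Fin d) (Fin d) ℝ) :=
  {h | ∃ A : Matrix (Fin d) (Fin d) ℤ, A.det ≠ 0 ∧ h = g * zR A}

lemma self_mem_Mul (g : Matrix (Fin d) (Fin d) ℝ) : g ∈ Mul g :=
  ⟨1, by simp, by rw [zR_one, Matrix.mul_one]⟩

lemma Mul_trans {g h : Matrix (Fin d) (Fin d) ℝ} (hh : h ∈ Mul g) {A : Matrix (Fin d) (Fin d) ℤ}
    (hA : A.det ≠ 0) : h * zR A ∈ Mul g := by
  obtain ⟨B, hB, rfl⟩ := hh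
  exact ⟨B * A, by rw [Matrix.det_mul]; exact mul_ne_zero hB hA, by
    rw [zR_mul, Matrix.mul_assoc]⟩

/-- division by `n` inside families closed under integer multiples -/
lemma spec_div (hd : 2 ≤ d) {X : Set (Matrix (Fin d) (Fin d) ℝ)}
    (hX : ∀ g ∈ X, ∀ A : Matrix (Fin d) (Fin d) ℤ, A.det ≠ 0 → g * zR A ∈ X) {ν : ℝ}
    (h : ν ∈ Spec X) {n : ℕ} (hn : 0 < n) : ν / n ∈ Spec X := by
  obtain ⟨hν, g, hgX, hdet, hint, hG⟩ := h
  obtain ⟨A, hA, hGA⟩ := exists_div_csd hd hG n hn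
  have hn' : (0 : ℝ) < n := by exact_mod_cast hn
  have hA0 : A.det ≠ 0 := by rw [hA]; exact_mod_cast hn.ne'
  have hdetA : (g * zR A).det = g.det * n := by
    rw [Matrix.det_mul, det_zR, hA]
    push_cast
    rfl
  refine ⟨by positivity, g * zR A, hX g hgX A hA0, ?_, ?_, ?_⟩
  · rw [hdetA]
    exact mul_ne_zero hdet hn'.ne'
  · rwa [propInt_mul_iff hA0]
  · rw [hdetA, abs_mul, abs_of_pos hn']
    have : ν / n * (|g.det| * n) = ν * |g.det| := by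
      field_simp
    rwa [this]

lemma spec_near (hd : 2 ≤ d) {X : Set (Matrix (Fin d) (Fin d) ℝ)}
    (hX : ∀ g ∈ X, ∀ A : Matrix (Fin d) (Fin d) ℤ, A.det ≠ 0 → g * zR A ∈ X) {ν : ℝ}
    (h : ν ∈ Spec X) {t : ℝ} (ht : 0 < t) (htν : t ≤ ν) :
    ∃ s ∈ Spec X, t ≤ s ∧ s ≤ t + 2 / ν * t ^ 2 := by
  obtain ⟨n, hn, h1, h2⟩ := exists_near h.1 ht htν
  exact ⟨ν / n, spec_div hd hX h hn, h1, h2⟩

def Gp (S : Set ℝ) : Prop :=
  ∀ C : ℝ, 0 < C → ∀ δ : ℝ, 0 < δ → ∃ t : ℝ, 0 < t ∧ t < δ ∧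
    ∀ s ∈ S, ¬ (t ≤ s ∧ s ≤ t + C * t ^ 2)

lemma gaps_of_finite {S : Set ℝ} (h0 : ∀ s ∈ S, 0 < s) (hfin : S.Finite) : Gp S := by
  intro C hC δ hδ
  obtain ⟨m, hm, hmin⟩ : ∃ m : ℝ, 0 < m ∧ ∀ s ∈ S, m ≤ s := by
    rcases S.eq_empty_or_nonempty with he | hne
    · exact ⟨1, one_pos, by simp [he]⟩
    · obtain ⟨m, hm, hle⟩ := Set.exists_min_image S id hfin hne
      exact ⟨m, h0 m hm, hle⟩
  refine ⟨min (δ / 2) (min (m / 4) (1 / (2 * C))), by positivity,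
    lt_of_le_of_lt (min_le_left _ _) (by linarith), ?_⟩
  rintro s hs ⟨_, hle⟩
  set t := min (δ / 2) (min (m / 4) (1 / (2 * C))) with ht
  have ht0 : 0 < t := by positivity
  have h1 : t ≤ m / 4 := (min_le_right _ _).trans (min_le_left _ _)
  have h2 : t ≤ 1 / (2 * C) := (min_le_right _ _).trans (min_le_right _ _)
  rw [le_div_iff₀ (by positivity)] at h2
  have h3 := hmin s hs
  nlinarith

lemma spec_empty_of_gaps (hd : 2 ≤ d) {X : Set (Matrix (Fin d) (Fin d) ℝ)}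
    (hX : ∀ g ∈ X, ∀ A : Matrix (Fin d) (Fin d) ℤ, A.det ≠ 0 → g * zR A ∈ X)
    (h : Gp (Spec X)) : Spec X = ∅ := by
  rw [Set.eq_empty_iff_forall_notMem]
  intro ν hν
  obtain ⟨t, ht0, htν, ht⟩ := h (2 / ν) (div_pos two_pos hν.1) ν hν.1
  obtain ⟨s, hs, h1, h2⟩ := spec_near hd hX hν ht0 htν.le
  exact ht s hs ⟨h1, h2⟩

def Zero (g : Matrix (Fin d) (Fin d) ℝ) : Prop :=
  ∀ ε : ℝ, 0 < ε → ∃ x : Fin d → ℤ, x ≠ 0 ∧ |FF g (iR x)| < ε

lemma spec_of_not_zero (hd : 0 < d) {X : Set (Matrix (Fin d) (Fin d) ℝ)}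
    {g : Matrix (Fin d) (Fin d) ℝ} (hgX : g ∈ X) (hdet : g.det ≠ 0) (hint : ¬ PropInt g)
    (h : ¬ Zero g) : (Spec X).Nonempty := by
  obtain ⟨ν, hν, hG⟩ := exists_gl hd g
  have hpos : 0 < ν := by
    rcases hν.eq_or_lt with rfl | h1
    · exfalso
      refine h fun ε hε => ?_
      obtain ⟨x, hx, hlt⟩ := ((gl_iff _ _).1 hG).2 ε hε
      exact ⟨x, hx, by linarith⟩
    · exact h1
  have hd' := abs_pos.2 hdet
  exact ⟨ν / |g.det|, div_pos hpos hd', g, hgX, hdet, hint, by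
    rwa [div_mul_cancel₀ _ hd'.ne']⟩

lemma not_zero_of_gl {g : Matrix (Fin d) (Fin d) ℝ} {ν : ℝ} (hν : 0 < ν) (hG : Gl g ν) :
    ¬ Zero g := by
  intro h
  obtain ⟨x, hx, hlt⟩ := h ν hν
  exact absurd (((gl_iff _ _).1 hG).1 x hx) (not_le.2 hlt)

lemma zero_mul_of_zero {g : Matrix (Fin d) (Fin d) ℝ} (h : Zero g)
    {A : Matrix (Fin d) (Fin d) ℤ} (hA : A.det ≠ 0) : Zero (g * zR A) := by
  intro ε hε
  have hA' : (0 : ℝ) < |((A.det : ℤ) : ℝ)| ^ d := by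
    have : ((A.det : ℤ) : ℝ) ≠ 0 := by exact_mod_cast hA
    positivity
  obtain ⟨x, hx, hlt⟩ := h (ε / |((A.det : ℤ) : ℝ)| ^ d) (by positivity)
  have hadj : A.adjugate.det ≠ 0 := by
    rw [Matrix.det_adjugate]
    exact pow_ne_zero _ hA
  refine ⟨A.adjugate *ᵥ x, mulVec_ne hadj hx, ?_⟩
  rw [FF_mul, zR_mulVec_iR, Matrix.mulVec_mulVec, Matrix.mul_adjugate]
  have e : iR ((A.det • (1 : Matrix (Fin d) (Fin d) ℤ)) *ᵥ x) = ((A.det : ℤ) : ℝ) • iR x := by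
    funext i
    simp [iR]
  have e2 : FF g (((A.det : ℤ) : ℝ) • iR x) = ((A.det : ℤ) : ℝ) ^ d * FF g (iR x) := by
    unfold FF
    have h1 : ∀ i : Fin d, ∑ j : Fin d, g i j * (((A.det : ℤ) : ℝ) • iR x) j =
        ((A.det : ℤ) : ℝ) * ∑ j, g i j * iR x j := by
      intro i
      rw [Finset.mul_sum]
      refine Finset.sum_congr rfl fun j _ => ?_
      rw [Pi.smul_apply, smul_eq_mul]
      ring
    rw [Finset.prod_congr rfl fun i _ => h1 i, Finset.prod_mul_distrib, Finset.prod_const,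
      Finset.card_univ, Fintype.card_fin]
  rw [e, e2, abs_mul, abs_pow]
  rw [lt_div_iff₀ hA'] at hlt
  linarith

/-- counterexamples are dense if there is one -/
lemma dense_csd {g : Matrix (Fin d) (Fin d) ℝ} (hg : g.det ≠ 0) (hint : ¬ PropInt g)
    (hz : ¬ Zero g) {U : Set (Matrix (Fin d) (Fin d) ℝ)} (hU : IsOpen U)
    {u : Matrix (Fin d) (Fin d) ℝ} (hu : u ∈ U) (hdet : u.det ≠ 0) :
    ∃ h ∈ U, h.det ≠ 0 ∧ ¬ PropInt h ∧ ¬ Zero h := by
  set y : Matrix (Fin d) (Fin d) ℝ := g⁻¹ * u with hy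
  set B : ℕ → Matrix (Fin d) (Fin d) ℤ := fun n => Matrix.of fun i j => ⌊((n : ℝ) + 1) * y i j⌋
    with hB
  set h : ℕ → Matrix (Fin d) (Fin d) ℝ := fun n => (1 / ((n : ℝ) + 1)) • (g * zR (B n)) with hh
  have hBlim : Tendsto (fun n : ℕ => (1 / ((n : ℝ) + 1)) • zR (B n)) atTop (𝓝 y) := by
    refine tendsto_pi_nhds.2 fun i => tendsto_pi_nhds.2 fun j => ?_
    rw [tendsto_iff_dist_tendsto_zero]
    refine squeeze_zero (fun _ => dist_nonneg) (fun n => ?_)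
      (tendsto_one_div_add_atTop_nhds_zero_nat (𝕜 := ℝ))
    have hn : (0 : ℝ) < (n : ℝ) + 1 := by positivity
    have h1 := Int.floor_le (((n : ℝ) + 1) * y i j)
    have h2 := Int.lt_floor_add_one (((n : ℝ) + 1) * y i j)
    have e : ((1 / ((n : ℝ) + 1)) • zR (B n)) i j = (⌊((n : ℝ) + 1) * y i j⌋ : ℝ) / ((n : ℝ) + 1) := by
      simp only [hB, zR, Matrix.smul_apply, Matrix.map_apply, Matrix.of_apply, smul_eq_mul]
      ring
    rw [e, Real.dist_eq, abs_le, le_sub_iff_add_le, sub_le_iff_le_add, le_div_iff₀ hn,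
      div_le_iff₀ hn]
    constructor
    · have : (-(1 / ((n : ℝ) + 1)) + y i j) * ((n : ℝ) + 1) = -1 + ((n : ℝ) + 1) * y i j := by
        field_simp
      rw [this]
      linarith
    · have : (1 / ((n : ℝ) + 1) + y i j) * ((n : ℝ) + 1) = 1 + ((n : ℝ) + 1) * y i j := by
        field_simp
      rw [this]
      linarith
  have hgu : g * y = u := by
    rw [hy, ← Matrix.mul_assoc, Matrix.mul_nonsing_inv _ (isUnit_iff_ne_zero.2 hg), Matrix.one_mul]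
  have hlim : Tendsto h atTop (𝓝 u) := by
    have h1 : Tendsto (fun n : ℕ => g * ((1 / ((n : ℝ) + 1)) • zR (B n))) atTop (𝓝 (g * y)) :=
      (continuous_const.matrix_mul continuous_id).continuousAt.tendsto.comp hBlim
    rw [hgu] at h1
    refine h1.congr fun n => ?_
    simp only [hh]
    rw [Matrix.mul_smul]
  have hev1 : ∀ᶠ n in atTop, h n ∈ U := hlim.eventually (hU.mem_nhds hu)
  have hev2 : ∀ᶠ n in atTop, (h n).det ≠ 0 :=
    ((continuous_det'.tendsto u).comp hlim).eventually (isOpen_ne.mem_nhds hdet)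
  obtain ⟨n, hn1, hn2⟩ := (hev1.and hev2).exists
  have ht : (1 / ((n : ℝ) + 1)) ≠ 0 := by positivity
  have hBdet : (B n).det ≠ 0 := by
    intro h0
    apply hn2
    simp only [hh]
    rw [Matrix.det_smul, Matrix.det_mul, det_zR, h0, Int.cast_zero, mul_zero, mul_zero]
  refine ⟨h n, hn1, hn2, ?_, ?_⟩
  · simp only [hh]
    rw [propInt_smul_iff ht, propInt_mul_iff hBdet]
    exact hint
  · intro hzn
    apply hz
    intro ε hε
    obtain ⟨x, hx, hlt⟩ := hzn ((1 / ((n : ℝ) + 1)) ^ d * ε) (by positivity)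
    refine ⟨B n *ᵥ x, mulVec_ne hBdet hx, ?_⟩
    simp only [hh] at hlt
    rw [FF_smul, abs_mul, abs_of_pos (by positivity), FF_mul, zR_mulVec_iR] at hlt
    exact lt_of_mul_lt_mul_left hlt (by positivity)

end Pool.Agent.V11299.SP
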