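import Mathlib
import Pool.Agent.Y327.Full
import Pool.Agent.H715R2.Littlewood
import Pool.Agent.V11299.SP.CsdC

/-! # Littlewood's problem and products of three linear forms -/

set_option autoImplicit false

open Filter Topology Matrix H715R2

namespace Pool.Agent.V11299.SP

/-- the limits are no integral forms -/
lemma not_propInt_YY {α β ν : ℝ} (hν0 : 0 < ν)
    (hν : ∀ q p r : ℤ, q ≠ 0 → ν ≤ |(q : ℝ) * (α * q - p) * (β * q - r)|)
    {h : Matrix (Fin 3) (Fin 3) ℝ} (hh : h ∈ H715R2.YY (H715R2.LLm α β)) :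
    ¬ H715R2.PropInt h := by
  intro hP
  have hnu := H715R2.YY_nu hν hh
  have hdet0 : h.det ≠ 0 := by
    rw [← abs_ne_zero, H715R2.abs_det_closure (H715R2.YY_subset _ hh), H715R2.LLm_det]
    exact one_ne_zero
  obtain ⟨A, -, hA1, -, hA2⟩ := Pool.Agent.H905R2.Opp.oppA _ (by norm_num) hdet0 hP (by
    intro p hp h0
    have h2 := hnu p hp
    rw [h0, abs_zero] at h2
    exact absurd h2 (not_le.2 hν0))
  obtain ⟨lam, hlam, hAg⟩ := Y327.eig_of_opp hdet0 hA1 hA2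
  obtain ⟨K, hfin, hrank, s, hs, hmem⟩ := H715R2.exists_alg_row hdet0 A lam hlam hAg 0
  exact H715R2.no_alg_point hν0 hν hh 0 s hs K hrank hmem

/-- positive values of the limit inferior are bounded by normalized infima of counterexamples -/
lemma exists_spec_ge {α β c : ℝ} (hc : 0 < c) (hlim : IsLim (lw α β) c) :
    ∃ s ∈ Spec (Set.univ : Set (Matrix (Fin 3) (Fin 3) ℝ)), c ≤ s := by
  obtain ⟨N, hN⟩ := eventually_atTop.1 (hlim.1 (c / 2) (by linarith))
  obtain ⟨ν, hν0, hν⟩ := exists_nu (α := α) (β := β) (ε := c / 2) (by linarith) (N := N)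
    (fun q hq _ => (hN q hq).le)
  obtain ⟨h, hh⟩ := YY_nonempty hν0 hν
  have hdet : |h.det| = 1 := by rw [abs_det_closure (YY_subset _ hh), LLm_det]
  have hlow : ∀ m : Fin 3 → ℤ, m ≠ 0 → c ≤ |FF h (iR m)| := by
    intro m hm
    by_contra hcon
    push Not at hcon
    have hcl := cluster hν0 hh (YY_nu hν hh) m hm
    obtain ⟨c', h1, h2⟩ := exists_between hcon
    have hfr := (mapClusterPt_iff_frequently.1 hcl) (Set.Iio c') (Iio_mem_nhds h1)
    have hev := hlim.1 c' h2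
    obtain ⟨q, hq1, hq2⟩ := (hfr.and_eventually hev).exists
    exact absurd hq2 (not_lt.2 (le_of_lt hq1))
  obtain ⟨s, hs0, hs⟩ := exists_gl (by norm_num : 0 < 3) h
  have hcs : c ≤ s := hs.2 (by rintro _ ⟨x, hx, rfl⟩; exact hlow x hx)
  exact ⟨s, mem_spec_univ (hc.trans_le hcs) hdet (not_propInt_YY hν0 hν hh) hs, hcs⟩

/-- one window suffices -/
lemma window {S : Set ℝ} (hpos : ∀ s ∈ S, 0 < s) (hdiv : ∀ s ∈ S, ∀ n : ℕ, 0 < n → s / n ∈ S)
    {t : ℝ} (ht : 0 < t) (h : ∀ s ∈ S, ¬ (t ≤ s ∧ s < 2 * t)) : ∀ s ∈ S, s < t := by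
  intro s hs
  by_contra hcon
  push Not at hcon
  have h1 : (1 : ℝ) ≤ s / t := by rwa [le_div_iff₀ ht, one_mul]
  have hn1 : 1 ≤ ⌊s / t⌋₊ := Nat.le_floor (by exact_mod_cast h1)
  have hle := Nat.floor_le (show (0 : ℝ) ≤ s / t by have := hpos s hs; positivity)
  have hlt := Nat.lt_floor_add_one (s / t)
  set n := ⌊s / t⌋₊ with hn
  have hn1' : (1 : ℝ) ≤ n := by exact_mod_cast hn1
  have hn0 : (0 : ℝ) < n := by linarith
  rw [le_div_iff₀ ht] at hle
  rw [div_lt_iff₀ ht] at hlt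
  refine h _ (hdiv s hs n hn1) ⟨?_, ?_⟩
  · rw [le_div_iff₀ hn0]
    linarith
  · rw [div_lt_iff₀ hn0]
    nlinarith

end Pool.Agent.V11299.SP
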